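import Mathlib

set_option autoImplicit false

/-!
# Leavitt path algebras of finite graphs

Definitions used for the rigidity theorem of isomorphisms between Leavitt path algebras.
-/

namespace Pool.Agent.Helper92.LV

universe u v

/-- A directed graph with vertex type `V` and edge type `E` (loops, multiple edges allowed). -/
structure Graph (V E : Type) where
  /-- source -/
  s : E → V
  /-- range -/
  r : E → V

/-- Generators of the Leavitt path algebra: vertices, edges, ghost edges. -/
inductive Gen (V E : Type) : Type
  | v : V → Gen V E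
  | e : E → Gen V E
  | g : E → Gen V E

section LPA

variable (k : Type u) [Field k] {V E : Type} [Fintype V] [Fintype E] [DecidableEq V]
  [DecidableEq E] (G : Graph V E)

open FreeAlgebra in
/-- The defining relations of the Leavitt path algebra of the finite graph `G` (in the free unital
algebra on the vertices, edges and ghost edges; the last relation says that the unit is the sum of
the vertices). -/
inductive Rel : FreeAlgebra k (Gen V E) → FreeAlgebra k (Gen V E) → Prop
  | vv (a b : V) : Rel (ι k (Gen.v a) * ι k (Gen.v b)) (if a = b then ι k (Gen.v a) else 0)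
  | se (e : E) : Rel (ι k (Gen.v (G.s e)) * ι k (Gen.e e)) (ι k (Gen.e e))
  | er (e : E) : Rel (ι k (Gen.e e) * ι k (Gen.v (G.r e))) (ι k (Gen.e e))
  | rg (e : E) : Rel (ι k (Gen.v (G.r e)) * ι k (Gen.g e)) (ι k (Gen.g e))
  | gs (e : E) : Rel (ι k (Gen.g e) * ι k (Gen.v (G.s e))) (ι k (Gen.g e))
  | ck1 (e f : E) : Rel (ι k (Gen.g e) * ι k (Gen.e f)) (if e = f then ι k (Gen.v (G.r e)) else 0)
  | ck2 (a : V) (h : ∃ e, G.s e = a) :
      Rel (ι k (Gen.v a)) (∑ e with G.s e = a, ι k (Gen.e e) * ι k (Gen.g e))
  | one : Rel (∑ a, ι k (Gen.v a)) 1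

/-- The Leavitt path algebra `L_k(G)` of a finite graph `G`. -/
abbrev LPA : Type u := RingQuot (Rel k G)

/-- The canonical images of the generators in `L_k(G)`. -/
noncomputable def gen (x : Gen V E) : LPA k G :=
  RingQuot.mkAlgHom k (Rel k G) (FreeAlgebra.ι k x)

/-- The path algebra `kG` inside `L_k(G)`: the subalgebra generated by the vertices and the
(real) edges. -/
noncomputable def pathAlg : Subalgebra k (LPA k G) :=
  Algebra.adjoin k (Set.range (fun a : V => gen k G (Gen.v a)) ∪
    Set.range (fun e : E => gen k G (Gen.e e)))

end LPA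

/-- `b` can be reached from `a` by a directed path. -/
inductive Graph.Reach {V E : Type} (G : Graph V E) : V → V → Prop
  | refl (a : V) : G.Reach a a
  | snoc (a : V) (e : E) : G.Reach a (G.s e) → G.Reach a (G.r e)

/-- Strongly connected. -/
def Graph.StronglyConnected {V E : Type} (G : Graph V E) : Prop := ∀ a b : V, G.Reach a b

/-- Every vertex emits at least two edges. -/
def Graph.TwoOut {V E : Type} (G : Graph V E) : Prop :=
  ∀ a : V, ∃ e f : E, e ≠ f ∧ G.s e = a ∧ G.s f = a

/-! ### Paths (as a start vertex together with the list of edges in REVERSE order) -/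

section Path

variable {V E : Type} (G : Graph V E)

/-- Range of the path with start `a` and reversed list of edges `l`. -/
def rng (a : V) : List E → V
  | [] => a
  | e :: _ => G.r e

/-- Validity of the path with start `a` and reversed list of edges `l`. -/
def ok (a : V) : List E → Prop
  | [] => True
  | e :: l => ok a l ∧ G.s e = rng G a l

/-- Paths of `G`. -/
def Pa : Type := {x : V × List E // ok G x.1 x.2}

namespace Pa
variable {G}

/-- start vertex -/
def src (p : Pa G) : V := p.1.1
/-- reversed list of edges -/
def lst (p : Pa G) : List E := p.1.2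
/-- end vertex -/
def tgt (p : Pa G) : V := rng G p.1.1 p.1.2
/-- length -/
def len (p : Pa G) : ℕ := p.1.2.length

/-- extension of a path by an edge -/
def ext (p : Pa G) (e : E) (h : G.s e = p.tgt) : Pa G := ⟨(p.1.1, e :: p.1.2), p.2, h⟩

/-- trivial path -/
def triv (G : Graph V E) (a : V) : Pa G := ⟨(a, []), trivial⟩

end Pa

end Path

/-! ### Leavitt families -/

/-- A Leavitt `G`-family in a `k`-algebra `L`. -/
structure Fam (k : Type u) [Field k] {V E : Type} [Fintype V] [Fintype E] [DecidableEq V]
    [DecidableEq E] (G : Graph V E) (L : Type v) [Ring L] [Algebra k L] where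
  /-- vertices -/
  v : V → L
  /-- edges -/
  e : E → L
  /-- ghost edges -/
  g : E → L
  vv : ∀ a b, v a * v b = if a = b then v a else 0
  se : ∀ x, v (G.s x) * e x = e x
  er : ∀ x, e x * v (G.r x) = e x
  rg : ∀ x, v (G.r x) * g x = g x
  gs : ∀ x, g x * v (G.s x) = g x
  ck1 : ∀ x y, g x * e y = if x = y then v (G.r x) else 0
  ck2 : ∀ a, (∃ x, G.s x = a) → v a = ∑ x with G.s x = a, e x * g x
  one : ∑ a, v a = 1

section FamSec

variable {k : Type u} [Field k] {V E : Type} [Fintype V] [Fintype E] [DecidableEq V]
    [DecidableEq E] {G : Graph V E} {L : Type v} [Ring L] [Algebra k L]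

/-- Path element: start vertex times the product of the edges. -/
def Fam.pl (f : Fam k G L) (a : V) : List E → L
  | [] => f.v a
  | x :: l => f.pl a l * f.e x

/-- The element of `L` given by a path. -/
def Fam.pe (f : Fam k G L) (p : Pa G) : L := f.pl p.1.1 p.1.2

/-- The span of the paths. -/
def Fam.O (f : Fam k G L) : Submodule k L := Submodule.span k (Set.range f.pe)

/-- The family generates `L` as a `k`-algebra. -/
def Fam.Gens (f : Fam k G L) : Prop :=
  Algebra.adjoin k (Set.range f.v ∪ Set.range f.e ∪ Set.range f.g) = ⊤

/-- The paths are linearly independent. -/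
def Fam.Indep (f : Fam k G L) : Prop := LinearIndependent k f.pe

end FamSec

end Pool.Agent.Helper92.LV
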