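import Mathlib
import Pool.Agent.Helper92.LV.Defs

set_option autoImplicit false

/-!
# Operators on the free `D`-module on the paths of a graph
-/

namespace Pool.Agent.Helper92.LV

universe u v

open Finsupp

section Ops

variable {V E : Type} [DecidableEq V] (G : Graph V E) (D : Type v) [DivisionRing D]

open Classical in
/-- Right multiplication by the edge `x` on the free `D`-module on the paths. -/
noncomputable def rmul (x : E) : (Pa G →₀ D) →ₗ[D] (Pa G →₀ D) :=
  Finsupp.lsum ℕ (fun p => if h : G.s x = p.tgt then lsingle (p.ext x h) else 0)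

open Classical in
/-- Right multiplication by the vertex `a`. -/
noncomputable def vproj (a : V) : (Pa G →₀ D) →ₗ[D] (Pa G →₀ D) :=
  Finsupp.lsum ℕ (fun p => if p.tgt = a then lsingle p else 0)

/-- Stable under right multiplication by edges and vertices. -/
def Stable (I : Submodule D (Pa G →₀ D)) : Prop :=
  (∀ x, ∀ c ∈ I, rmul G D x c ∈ I) ∧ (∀ a, ∀ c ∈ I, vproj G D a c ∈ I)

/-- Elements supported on paths of length `≤ n`. -/
def lenLE (n : ℕ) : Submodule D (Pa G →₀ D) := supported D D {p | p.len ≤ n}

/-- Elements supported on paths of length `< n`. -/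
def lenLT (n : ℕ) : Submodule D (Pa G →₀ D) := supported D D {p | p.len < n}

end Ops

/-- `p` extends `q`. -/
def Pa.Desc {V E : Type} {G : Graph V E} (q p : Pa G) : Prop :=
  p.src = q.src ∧ ∃ l, p.lst = l ++ q.lst

/-- The product of the `δ`-values of a reversed list. -/
def dl {A : Type} {D : Type v} [Monoid D] (δ : A → D) : List A → D
  | [] => 1
  | a :: l => dl δ l * δ a

/-- Span of the values of all words. -/
def W (k : Type u) [Field k] {A : Type} {D : Type v} [Ring D] [Algebra k D] (δ : A → D) :
    Submodule k D := Submodule.span k (Set.range (dl δ))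

end Pool.Agent.Helper92.LV
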