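import Mathlib
import Pool.Agent.Helper92.LV.Ops

set_option autoImplicit false

/-!
# Path calculus in an algebra with a Leavitt family
-/

namespace Pool.Agent.Helper92.LV

universe u v

open Finsupp

section Paths

variable {V E : Type} {G : Graph V E}

lemma ok_append {a b : V} {l l' : List E} (h : ok G a l) (h' : ok G b l') (hb : rng G a l = b) :
    ok G a (l' ++ l) := by
  induction l' with
  | nil => simpa using h
  | cons x l' ih =>
    obtain ⟨h1, h2⟩ := h'
    refine ⟨ih h1, ?_⟩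
    rw [h2]
    cases l' with
    | nil =>
      simp only [rng, List.nil_append]
      exact hb.symm
    | cons y l' => rfl

lemma rng_append {a b : V} {l l' : List E} (hb : rng G a l = b) :
    rng G a (l' ++ l) = rng G b l' := by
  cases l' with
  | nil => simpa [rng] using hb
  | cons x l' => rfl

lemma rng_cons_append (a b : V) (x : E) (l l' : List E) :
    rng G a (x :: l ++ l') = rng G b (x :: l) := rfl

/-- composition of paths -/
def Pa.comp (p q : Pa G) (h : p.tgt = q.src) : Pa G :=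
  ⟨(p.1.1, q.1.2 ++ p.1.2), ok_append p.2 q.2 h⟩

lemma Pa.comp_len (p q : Pa G) (h : p.tgt = q.src) : (p.comp q h).len = q.len + p.len := by
  simp [Pa.comp, Pa.len]

lemma Pa.comp_tgt (p q : Pa G) (h : p.tgt = q.src) : (p.comp q h).tgt = q.tgt :=
  rng_append h

@[simp] lemma Pa.ext_len (p : Pa G) (x : E) (h : G.s x = p.tgt) : (p.ext x h).len = p.len + 1 := rfl
@[simp] lemma Pa.ext_tgt (p : Pa G) (x : E) (h : G.s x = p.tgt) : (p.ext x h).tgt = G.r x := rfl
@[simp] lemma Pa.ext_src (p : Pa G) (x : E) (h : G.s x = p.tgt) : (p.ext x h).src = p.src := rfl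
@[simp] lemma Pa.ext_lst (p : Pa G) (x : E) (h : G.s x = p.tgt) : (p.ext x h).lst = x :: p.lst := rfl
@[simp] lemma Pa.triv_len (a : V) : (Pa.triv G a).len = 0 := rfl
@[simp] lemma Pa.triv_tgt (a : V) : (Pa.triv G a).tgt = a := rfl
@[simp] lemma Pa.triv_src (a : V) : (Pa.triv G a).src = a := rfl
@[simp] lemma Pa.triv_lst (a : V) : (Pa.triv G a).lst = [] := rfl

lemma Pa.ext_inj {p q : Pa G} {x y : E} {h : G.s x = p.tgt} {h' : G.s y = q.tgt}
    (hh : p.ext x h = q.ext y h') : p = q ∧ x = y := by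
  obtain ⟨⟨a, l⟩, hp⟩ := p
  obtain ⟨⟨b, m⟩, hq⟩ := q
  have := congrArg Subtype.val hh
  simp only [Pa.ext, Prod.mk.injEq, List.cons.injEq] at this
  obtain ⟨rfl, rfl, rfl⟩ := this
  exact ⟨rfl, rfl⟩

lemma Pa.eq_of {p q : Pa G} (h1 : p.src = q.src) (h2 : p.lst = q.lst) : p = q :=
  Subtype.ext (Prod.ext h1 h2)

/-- every path of positive length is an extension -/
lemma Pa.exists_ext (p : Pa G) (h : p.len ≠ 0) :
    ∃ (q : Pa G) (x : E) (hx : G.s x = q.tgt), p = q.ext x hx := by
  obtain ⟨⟨a, l⟩, hp⟩ := p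
  cases l with
  | nil => exact absurd rfl h
  | cons x l => exact ⟨⟨(a, l), hp.1⟩, x, hp.2, rfl⟩

lemma Pa.eq_triv (p : Pa G) (h : p.len = 0) : p = Pa.triv G p.src := by
  obtain ⟨⟨a, l⟩, hp⟩ := p
  have : l = [] := List.length_eq_zero_iff.mp h
  subst this
  rfl

/-- paths of every length from every vertex -/
lemma Pa.exists_path (hG : ∀ a : V, ∃ x : E, G.s x = a) (a : V) (n : ℕ) :
    ∃ p : Pa G, p.src = a ∧ p.len = n := by
  induction n with
  | zero => exact ⟨Pa.triv G a, rfl, rfl⟩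
  | succ n ih =>
    obtain ⟨p, h1, h2⟩ := ih
    obtain ⟨x, hx⟩ := hG p.tgt
    exact ⟨p.ext x hx, h1, by simp [h2]⟩

/-- a path of positive length starts with an edge -/
lemma Pa.exists_cons (p : Pa G) (h : p.len ≠ 0) :
    ∃ (q : Pa G) (x : E), q.src = G.r x ∧ p.src = G.s x ∧ p.lst = q.lst ++ [x] ∧
      q.len + 1 = p.len := by
  obtain ⟨⟨a, l⟩, hp⟩ := p
  change l.length ≠ 0 at h
  suffices H : ∀ (l : List E), l.length ≠ 0 → ok G a l → ∃ (x : E) (m : List E), ok G (G.r x) m ∧
      rng G (G.r x) m = rng G a l ∧ a = G.s x ∧ l = m ++ [x] by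
    obtain ⟨x, m, h1, -, h2, h3⟩ := H l h hp
    refine ⟨⟨(G.r x, m), h1⟩, x, rfl, h2, h3, ?_⟩
    change m.length + 1 = l.length
    simp [h3]
  clear h hp l
  intro l
  induction l with
  | nil => intro h; exact absurd rfl h
  | cons y l ih =>
    intro _ hp
    by_cases hl : l = []
    · subst hl
      exact ⟨y, [], trivial, rfl, hp.2.symm, rfl⟩
    · obtain ⟨x, m, h1, h1', h2, h3⟩ := ih (by simpa using hl) hp.1
      refine ⟨x, y :: m, ⟨h1, ?_⟩, rfl, h2, by simp [h3]⟩
      rw [h1']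
      exact hp.2

lemma Pa.finite_len [Finite V] [Finite E] (n : ℕ) : {p : Pa G | p.len ≤ n}.Finite := by
  have h1 : {l : List E | l.length ≤ n}.Finite := List.finite_length_le E n
  have h2 : (Set.univ ×ˢ {l : List E | l.length ≤ n} : Set (V × List E)).Finite :=
    Set.finite_univ.prod h1
  refine Set.Finite.of_finite_image (f := Subtype.val) (h2.subset ?_) Subtype.val_injective.injOn
  rintro _ ⟨p, hp, rfl⟩
  exact ⟨Set.mem_univ _, hp⟩

end Paths

section FamSec

variable {k : Type u} [Field k] {V E : Type} [Fintype V] [Fintype E] [DecidableEq V]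
    [DecidableEq E] {G : Graph V E} {L : Type v} [Ring L] [Algebra k L] (f : Fam k G L)

namespace Fam

lemma e_mul_v (x : E) (b : V) : f.e x * f.v b = if G.r x = b then f.e x else 0 := by
  rw [← f.er x, mul_assoc, f.vv]
  split_ifs <;> simp

lemma v_mul_e (x : E) (b : V) : f.v b * f.e x = if b = G.s x then f.e x else 0 := by
  conv_lhs => rw [← f.se x]
  rw [← mul_assoc, f.vv]
  split_ifs with h
  · rw [h, f.se]
  · simp

lemma pl_mul_v (a b : V) (l : List E) :
    f.pl a l * f.v b = if rng G a l = b then f.pl a l else 0 := by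
  cases l with
  | nil => exact f.vv a b
  | cons x l =>
    change f.pl a l * f.e x * f.v b = _
    rw [mul_assoc, e_mul_v]
    change _ = if G.r x = b then f.pl a l * f.e x else 0
    split_ifs <;> simp

lemma v_mul_pl (a b : V) (l : List E) :
    f.v b * f.pl a l = if b = a then f.pl a l else 0 := by
  induction l with
  | nil =>
    change f.v b * f.v a = if b = a then f.v a else 0
    rw [f.vv]
    split_ifs with h
    · rw [h]
    · rfl
  | cons x l ih =>
    change f.v b * (f.pl a l * f.e x) = if b = a then f.pl a l * f.e x else 0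
    rw [← mul_assoc, ih]
    split_ifs <;> simp

lemma pl_cons_zero (a : V) (x : E) (l : List E) (h : G.s x ≠ rng G a l) :
    f.pl a (x :: l) = 0 := by
  change f.pl a l * f.e x = 0
  rw [← f.se x, ← mul_assoc, pl_mul_v, if_neg (Ne.symm h), zero_mul]

lemma pl_mul_pl (a b : V) (l l' : List E) :
    f.pl a l * f.pl b l' = if rng G a l = b then f.pl a (l' ++ l) else 0 := by
  induction l' with
  | nil => exact pl_mul_v f a b l
  | cons x l' ih =>
    change f.pl a l * (f.pl b l' * f.e x) = _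
    rw [← mul_assoc, ih]
    change _ = if rng G a l = b then f.pl a (l' ++ l) * f.e x else 0
    split_ifs <;> simp

lemma pe_triv (a : V) : f.pe (Pa.triv G a) = f.v a := rfl

lemma pe_ext (p : Pa G) (x : E) (h : G.s x = p.tgt) : f.pe (p.ext x h) = f.pe p * f.e x := rfl

lemma pe_mul_e (p : Pa G) (x : E) :
    f.pe p * f.e x = if h : G.s x = p.tgt then f.pe (p.ext x h) else 0 := by
  split_ifs with h
  · rfl
  · exact pl_cons_zero f p.1.1 x p.1.2 h

lemma pe_mul_v (p : Pa G) (a : V) : f.pe p * f.v a = if p.tgt = a then f.pe p else 0 :=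
  pl_mul_v f _ _ _

lemma v_mul_pe (p : Pa G) (a : V) : f.v a * f.pe p = if a = p.src then f.pe p else 0 :=
  v_mul_pl f _ _ _

lemma pe_mul_tgt (p : Pa G) : f.pe p * f.v p.tgt = f.pe p := by
  rw [pe_mul_v, if_pos rfl]

lemma pe_comp (p q : Pa G) (h : p.tgt = q.src) : f.pe (p.comp q h) = f.pe p * f.pe q := by
  change _ = f.pl _ _ * f.pl _ _
  rw [pl_mul_pl]
  exact (if_pos h).symm

lemma pe_mul_pe (p q : Pa G) :
    f.pe p * f.pe q = if h : p.tgt = q.src then f.pe (p.comp q h) else 0 := by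
  split_ifs with h
  · rw [pe_comp]
  · change f.pl _ _ * f.pl _ _ = _
    rw [pl_mul_pl]
    exact if_neg h

/-- an edge as a path -/
def edg (G : Graph V E) (x : E) : Pa G := (Pa.triv G (G.s x)).ext x rfl

lemma pe_edg (x : E) : f.pe (edg G x) = f.e x := by
  change f.v (G.s x) * f.e x = _
  rw [f.se]

lemma e_mul_pe (x : E) (p : Pa G) :
    f.e x * f.pe p = if h : (edg G x).tgt = p.src then f.pe ((edg G x).comp p h) else 0 := by
  rw [← pe_edg, pe_mul_pe]

lemma g_mul_pe (x : E) (p : Pa G) (hp : p.len ≠ 0) :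
    ∃ q : Pa G, q.len + 1 = p.len ∧ (f.g x * f.pe p = f.pe q ∨ f.g x * f.pe p = 0) := by
  obtain ⟨q, y, h1, h2, h3, h4⟩ := p.exists_cons hp
  refine ⟨q, h4, ?_⟩
  have h5 : f.pe p = f.e y * f.pe q := by
    have h6 : (edg G y).tgt = q.src := h1.symm
    rw [e_mul_pe, dif_pos h6]
    congr 1
    exact Pa.eq_of h2 h3
  rw [h5, ← mul_assoc, f.ck1]
  split_ifs with h
  · left
    rw [v_mul_pe, if_pos]
    rw [h1, h]
  · right
    simp

/-- the span of paths of length at least `n` -/
def OGe (n : ℕ) : Submodule k L := Submodule.span k (f.pe '' {q | n ≤ q.len})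

lemma OGe_le (n : ℕ) : f.OGe n ≤ f.O := Submodule.span_mono (Set.image_subset_range _ _)

lemma pe_mem_OGe (p : Pa G) (n : ℕ) (h : n ≤ p.len) : f.pe p ∈ f.OGe n :=
  Submodule.subset_span ⟨p, h, rfl⟩

lemma pe_mem_O (p : Pa G) : f.pe p ∈ f.O := Submodule.subset_span ⟨p, rfl⟩

lemma v_mem_O (a : V) : f.v a ∈ f.O := f.pe_mem_O (Pa.triv G a)

lemma e_mem_O (x : E) : f.e x ∈ f.O := by
  rw [← pe_edg]
  exact f.pe_mem_O _

lemma one_mem_O : (1 : L) ∈ f.O := by
  rw [← f.one]
  exact Submodule.sum_mem _ fun a _ => f.v_mem_O a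

lemma O_mul_mem {a b : L} (ha : a ∈ f.O) (hb : b ∈ f.O) : a * b ∈ f.O := by
  induction ha using Submodule.span_induction with
  | mem a ha =>
    obtain ⟨p, rfl⟩ := ha
    induction hb using Submodule.span_induction with
    | mem b hb =>
      obtain ⟨q, rfl⟩ := hb
      rw [pe_mul_pe]
      split_ifs
      · exact f.pe_mem_O _
      · exact zero_mem _
    | zero => rw [mul_zero]; exact zero_mem _
    | add x y _ _ hx hy => rw [mul_add]; exact add_mem hx hy
    | smul c x _ hx => rw [mul_smul_comm]; exact Submodule.smul_mem _ _ hx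
  | zero => rw [zero_mul]; exact zero_mem _
  | add x y _ _ hx hy => rw [add_mul]; exact add_mem hx hy
  | smul c x _ hx => rw [smul_mul_assoc]; exact Submodule.smul_mem _ _ hx

/-- The span of the paths is the subalgebra generated by vertices and edges. -/
lemma O_eq_adjoin :
    f.O = Subalgebra.toSubmodule (Algebra.adjoin k (Set.range f.v ∪ Set.range f.e)) := by
  apply le_antisymm
  · apply Submodule.span_le.mpr
    rintro _ ⟨⟨⟨a, l⟩, hp⟩, rfl⟩
    change f.pl a l ∈ Algebra.adjoin k (Set.range f.v ∪ Set.range f.e)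
    clear hp
    induction l with
    | nil => exact Algebra.subset_adjoin (Or.inl ⟨a, rfl⟩)
    | cons x l ih => exact mul_mem ih (Algebra.subset_adjoin (Or.inr ⟨x, rfl⟩))
  · intro x hx
    induction hx using Algebra.adjoin_induction with
    | mem x hx =>
      rcases hx with ⟨a, rfl⟩ | ⟨y, rfl⟩
      · exact f.v_mem_O a
      · exact f.e_mem_O y
    | algebraMap c =>
      rw [Algebra.algebraMap_eq_smul_one]
      exact Submodule.smul_mem _ _ f.one_mem_O
    | add x y _ _ hx hy => exact add_mem hx hy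
    | mul x y _ _ hx hy => exact f.O_mul_mem hx hy

lemma mul_OGe {l : L} {n j : ℕ} (h : ∀ p : Pa G, j ≤ p.len → l * f.pe p ∈ f.OGe n) {y : L}
    (hy : y ∈ f.OGe j) : l * y ∈ f.OGe n := by
  induction hy using Submodule.span_induction with
  | mem b hb =>
    obtain ⟨q, hq, rfl⟩ := hb
    exact h q hq
  | zero => rw [mul_zero]; exact zero_mem _
  | add x y _ _ hx hy => rw [mul_add]; exact add_mem hx hy
  | smul c x _ hx => rw [mul_smul_comm]; exact Submodule.smul_mem _ _ hx

/-- long paths absorb elements of `L` -/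
theorem long_mul (hf : f.Gens) (l : L) :
    ∀ n : ℕ, ∃ j : ℕ, ∀ p : Pa G, j ≤ p.len → l * f.pe p ∈ f.OGe n := by
  have hl : l ∈ Algebra.adjoin k (Set.range f.v ∪ Set.range f.e ∪ Set.range f.g) := by
    rw [show Algebra.adjoin k (Set.range f.v ∪ Set.range f.e ∪ Set.range f.g) = ⊤ from hf]
    trivial
  induction hl using Algebra.adjoin_induction with
  | mem x hx =>
    intro n
    rcases hx with (⟨a, rfl⟩ | ⟨y, rfl⟩) | ⟨y, rfl⟩
    · refine ⟨n, fun p hp => ?_⟩
      rw [v_mul_pe]
      split_ifs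
      · exact f.pe_mem_OGe _ _ hp
      · exact zero_mem _
    · refine ⟨n, fun p hp => ?_⟩
      rw [e_mul_pe]
      split_ifs
      · refine f.pe_mem_OGe _ _ ?_
        rw [Pa.comp_len]
        omega
      · exact zero_mem _
    · refine ⟨n + 1, fun p hp => ?_⟩
      obtain ⟨q, hq, h | h⟩ := f.g_mul_pe y p (by omega)
      · rw [h]
        exact f.pe_mem_OGe _ _ (by omega)
      · rw [h]
        exact zero_mem _
  | algebraMap c =>
    intro n
    refine ⟨n, fun p hp => ?_⟩
    rw [← Algebra.smul_def]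
    exact Submodule.smul_mem _ _ (f.pe_mem_OGe _ _ hp)
  | add x y _ _ hx hy =>
    intro n
    obtain ⟨i, hi⟩ := hx n
    obtain ⟨j, hj⟩ := hy n
    refine ⟨max i j, fun p hp => ?_⟩
    rw [add_mul]
    exact add_mem (hi p (le_trans (le_max_left _ _) hp)) (hj p (le_trans (le_max_right _ _) hp))
  | mul x y _ _ hx hy =>
    intro n
    obtain ⟨i, hi⟩ := hx n
    obtain ⟨j, hj⟩ := hy i
    refine ⟨j, fun p hp => ?_⟩
    rw [mul_assoc]
    exact f.mul_OGe hi (hj p hp)

lemma sum_eg (hG : ∀ a : V, ∃ x : E, G.s x = a) : ∑ x, f.e x * f.g x = 1 := by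
  rw [← f.one]
  rw [← Finset.sum_fiberwise Finset.univ G.s (fun x => f.e x * f.g x)]
  refine Finset.sum_congr rfl fun a _ => ?_
  rw [f.ck2 a (hG a)]

end Fam

end FamSec

end Pool.Agent.Helper92.LV
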