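import Mathlib
import Pool.Agent.Helper92.LV.M1

set_option autoImplicit false

/-!
# The canonical family of `L_k(G)`; independence of the paths
-/

namespace Pool.Agent.Helper92.LV

universe u v

open Finsupp

section Canon

variable (k : Type u) [Field k] {V E : Type} [Fintype V] [Fintype E] [DecidableEq V]
  [DecidableEq E] (G : Graph V E)

lemma gen_rel {a b : FreeAlgebra k (Gen V E)} (h : Rel k G a b) :
    RingQuot.mkAlgHom k (Rel k G) a = RingQuot.mkAlgHom k (Rel k G) b :=
  RingQuot.mkAlgHom_rel k h

/-- The canonical family. -/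
noncomputable def canon : Fam k G (LPA k G) where
  v a := gen k G (Gen.v a)
  e x := gen k G (Gen.e x)
  g x := gen k G (Gen.g x)
  vv a b := by
    have := gen_rel k G (Rel.vv a b)
    rw [map_mul] at this
    rw [gen, gen, this]
    split_ifs <;> simp
  se x := by
    have := gen_rel k G (Rel.se x)
    rwa [map_mul] at this
  er x := by
    have := gen_rel k G (Rel.er x)
    rwa [map_mul] at this
  rg x := by
    have := gen_rel k G (Rel.rg x)
    rwa [map_mul] at this
  gs x := by
    have := gen_rel k G (Rel.gs x)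
    rwa [map_mul] at this
  ck1 x y := by
    have := gen_rel k G (Rel.ck1 x y)
    rw [map_mul] at this
    rw [gen, gen, this]
    split_ifs
    · rfl
    · simp
  ck2 a h := by
    have := gen_rel k G (Rel.ck2 a h)
    rw [map_sum] at this
    rw [gen, this]
    exact Finset.sum_congr rfl fun x _ => map_mul _ _ _
  one := by
    have := gen_rel k G (Rel.one)
    rw [map_sum, map_one] at this
    exact this

theorem canon_gens : (canon k G).Gens := by
  have h1 : (Algebra.adjoin k (Set.range (FreeAlgebra.ι k (X := Gen V E)))).map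
      (RingQuot.mkAlgHom k (Rel k G)) = ⊤ := by
    rw [FreeAlgebra.adjoin_range_ι, Algebra.map_top, AlgHom.range_eq_top]
    exact RingQuot.mkAlgHom_surjective k (Rel k G)
  rw [Fam.Gens, eq_top_iff, ← h1, AlgHom.map_adjoin]
  apply Algebra.adjoin_mono
  rintro _ ⟨_, ⟨x, rfl⟩, rfl⟩
  rcases x with a | x | x
  · exact Or.inl (Or.inl ⟨a, rfl⟩)
  · exact Or.inl (Or.inr ⟨x, rfl⟩)
  · exact Or.inr ⟨x, rfl⟩

/-- The path algebra is the span of the paths. -/
theorem canon_O : (canon k G).O = Subalgebra.toSubmodule (pathAlg k G) :=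
  (canon k G).O_eq_adjoin

end Canon

section Transport

variable {k : Type u} [Field k] {V E : Type} [Fintype V] [Fintype E] [DecidableEq V]
  [DecidableEq E] {G : Graph V E} {L : Type v} [Ring L] [Algebra k L] {L' : Type v} [Ring L']
  [Algebra k L'] (f : Fam k G L)

/-- image of a family under an algebra homomorphism -/
def Fam.map (φ : L →ₐ[k] L') : Fam k G L' where
  v a := φ (f.v a)
  e x := φ (f.e x)
  g x := φ (f.g x)
  vv a b := by
    rw [← map_mul, f.vv]
    split_ifs <;> simp
  se x := by rw [← map_mul, f.se]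
  er x := by rw [← map_mul, f.er]
  rg x := by rw [← map_mul, f.rg]
  gs x := by rw [← map_mul, f.gs]
  ck1 x y := by
    rw [← map_mul, f.ck1]
    split_ifs <;> simp
  ck2 a h := by
    rw [f.ck2 a h, map_sum]
    exact Finset.sum_congr rfl fun x _ => map_mul _ _ _
  one := by rw [← map_sum, f.one, map_one]

lemma Fam.map_pe (φ : L →ₐ[k] L') (p : Pa G) : (f.map φ).pe p = φ (f.pe p) := by
  obtain ⟨⟨a, l⟩, hp⟩ := p
  change (f.map φ).pl a l = φ (f.pl a l)
  clear hp
  induction l with
  | nil => rfl
  | cons x l ih =>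
    change (f.map φ).pl a l * φ (f.e x) = φ (f.pl a l * f.e x)
    rw [ih, map_mul]

lemma Fam.map_gens (φ : L →ₐ[k] L') (hφ : Function.Surjective φ) (hf : f.Gens) :
    (f.map φ).Gens := by
  have h1 : (Algebra.adjoin k (Set.range f.v ∪ Set.range f.e ∪ Set.range f.g)).map φ = ⊤ := by
    rw [show Algebra.adjoin k (Set.range f.v ∪ Set.range f.e ∪ Set.range f.g) = ⊤ from hf,
      Algebra.map_top, AlgHom.range_eq_top]
    exact hφ
  rw [Fam.Gens, eq_top_iff, ← h1, AlgHom.map_adjoin]
  apply Algebra.adjoin_mono
  rintro _ ⟨_, (⟨a, rfl⟩ | ⟨x, rfl⟩) | ⟨x, rfl⟩, rfl⟩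
  · exact Or.inl (Or.inl ⟨a, rfl⟩)
  · exact Or.inl (Or.inr ⟨x, rfl⟩)
  · exact Or.inr ⟨x, rfl⟩

lemma Fam.map_indep (φ : L →ₐ[k] L') (hφ : Function.Injective φ) (hf : f.Indep) :
    (f.map φ).Indep := by
  have h1 : (f.map φ).pe = φ.toLinearMap ∘ f.pe := by
    funext p
    exact f.map_pe φ p
  rw [Fam.Indep, h1]
  exact LinearIndependent.map' hf φ.toLinearMap (LinearMap.ker_eq_bot.mpr hφ)

end Transport

section Indep

variable (k : Type u) [Field k] {V E : Type} [Fintype V] [Fintype E] [DecidableEq V]
  [DecidableEq E] (G : Graph V E)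

/-- infinite paths -/
def Inf : Type := {ξ : ℕ → E // ∀ i, G.r (ξ i) = G.s (ξ (i + 1))}

variable {G}

/-- first vertex -/
def Inf.st (ξ : Inf G) : V := G.s (ξ.1 0)

/-- prepend an edge -/
def Inf.cons (x : E) (ξ : Inf G) (h : G.r x = ξ.st) : Inf G :=
  ⟨fun i => Nat.casesOn i x ξ.1, fun i => by cases i with
    | zero => exact h
    | succ i => exact ξ.2 i⟩

/-- remove the first edge -/
def Inf.tail (ξ : Inf G) : Inf G := ⟨fun i => ξ.1 (i + 1), fun i => ξ.2 (i + 1)⟩

lemma Inf.tail_cons (x : E) (ξ : Inf G) (h : G.r x = ξ.st) : (ξ.cons x h).tail = ξ := rfl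

lemma Inf.st_cons (x : E) (ξ : Inf G) (h : G.r x = ξ.st) : (ξ.cons x h).st = G.s x := rfl

lemma Inf.st_tail (ξ : Inf G) : ξ.tail.st = G.r (ξ.1 0) := (ξ.2 0).symm

lemma Inf.cons_tail (ξ : Inf G) : ξ.tail.cons (ξ.1 0) ξ.st_tail.symm = ξ := by
  apply Subtype.ext
  funext i
  cases i <;> rfl

variable (G)

/-- the module -/
abbrev XM : Type u := (ℤ × Inf G) →₀ k

open Classical in
/-- action of a vertex -/
noncomputable def av (a : V) : XM k G →ₗ[k] XM k G :=
  Finsupp.lsum ℕ (fun y => if y.2.st = a then lsingle y else 0)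

open Classical in
/-- action of an edge -/
noncomputable def ae (x : E) : XM k G →ₗ[k] XM k G :=
  Finsupp.lsum ℕ (fun y => if h : G.r x = y.2.st then lsingle (y.1 + 1, y.2.cons x h) else 0)

open Classical in
/-- action of a ghost edge -/
noncomputable def ag (x : E) : XM k G →ₗ[k] XM k G :=
  Finsupp.lsum ℕ (fun y => if y.2.1 0 = x then lsingle (y.1 - 1, y.2.tail) else 0)

open Classical in
lemma av_single (a : V) (y : ℤ × Inf G) (c : k) :
    av k G a (single y c) = if y.2.st = a then single y c else 0 := by
  simp only [av, lsum_single]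
  split_ifs <;> simp

open Classical in
lemma ae_single (x : E) (y : ℤ × Inf G) (c : k) :
    ae k G x (single y c) =
      if h : G.r x = y.2.st then single (y.1 + 1, y.2.cons x h) c else 0 := by
  simp only [ae, lsum_single]
  split_ifs <;> simp

open Classical in
lemma ag_single (x : E) (y : ℤ × Inf G) (c : k) :
    ag k G x (single y c) = if y.2.1 0 = x then single (y.1 - 1, y.2.tail) c else 0 := by
  simp only [ag, lsum_single]
  split_ifs <;> simp

/-- The family of operators. -/
noncomputable def opFam (hG : ∀ a : V, ∃ x : E, G.s x = a) :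
    Fam k G (Module.End k (XM k G)) where
  v a := av k G a
  e x := ae k G x
  g x := ag k G x
  vv a b := by
    ext y : 1
    refine LinearMap.ext_ring ?_
    by_cases h : a = b
    · subst h
      rw [if_pos rfl]
      simp only [LinearMap.comp_apply, lsingle_apply, Module.End.mul_apply]
      rw [av_single]
      split_ifs with h'
      · rw [av_single, if_pos h']
      · simp
    · rw [if_neg h]
      simp only [LinearMap.comp_apply, lsingle_apply, Module.End.mul_apply]
      rw [av_single]
      split_ifs with h'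
      · rw [av_single, if_neg (by rw [h']; exact fun hh => h hh.symm)]
        simp
      · simp
  se x := by
    ext y : 1
    refine LinearMap.ext_ring ?_
    simp only [LinearMap.comp_apply, lsingle_apply, Module.End.mul_apply]
    rw [ae_single]
    split_ifs with h
    · rw [av_single, if_pos (Inf.st_cons x _ h)]
    · simp
  er x := by
    ext y : 1
    refine LinearMap.ext_ring ?_
    simp only [LinearMap.comp_apply, lsingle_apply, Module.End.mul_apply]
    rw [av_single]
    split_ifs with h
    · rfl
    · rw [map_zero, ae_single, dif_neg (fun hh => h hh.symm)]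
  rg x := by
    ext y : 1
    refine LinearMap.ext_ring ?_
    simp only [LinearMap.comp_apply, lsingle_apply, Module.End.mul_apply]
    rw [ag_single]
    split_ifs with h
    · rw [av_single, if_pos]
      rw [Inf.st_tail, h]
    · simp
  gs x := by
    ext y : 1
    refine LinearMap.ext_ring ?_
    simp only [LinearMap.comp_apply, lsingle_apply, Module.End.mul_apply]
    rw [av_single]
    split_ifs with h
    · rfl
    · rw [map_zero, ag_single, if_neg]
      intro hh
      apply h
      rw [← hh]
      rfl
  ck1 x y := by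
    ext z : 1
    refine LinearMap.ext_ring ?_
    simp only [LinearMap.comp_apply, lsingle_apply, Module.End.mul_apply]
    rw [ae_single]
    by_cases hxy : x = y
    · subst hxy
      rw [if_pos rfl]
      split_ifs with h
      · have hx0 : ((z.1 + 1, Inf.cons x z.2 h) : ℤ × Inf G).2.1 0 = x := rfl
        rw [ag_single, if_pos hx0, av_single, if_pos h.symm]
        simp only [add_sub_cancel_right, Inf.tail_cons]
      · rw [map_zero, av_single, if_neg (fun hh => h hh.symm)]
    · rw [if_neg hxy]
      split_ifs with h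
      · have hx0 : ¬ ((z.1 + 1, Inf.cons y z.2 h) : ℤ × Inf G).2.1 0 = x :=
          fun hh => hxy (Eq.symm hh)
        rw [ag_single, if_neg hx0]
        simp
      · simp
  ck2 a h := by
    ext z : 1
    refine LinearMap.ext_ring ?_
    simp only [LinearMap.comp_apply, lsingle_apply, LinearMap.sum_apply, Module.End.mul_apply]
    rw [av_single]
    split_ifs with hz
    · rw [Finset.sum_eq_single (z.2.1 0)]
      · rw [ag_single, if_pos rfl, ae_single, dif_pos (Inf.st_tail z.2).symm]
        simp only [sub_add_cancel, Inf.cons_tail]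
      · intro x _ hx
        rw [ag_single, if_neg (Ne.symm hx), map_zero]
      · intro h'
        exact absurd (Finset.mem_filter.mpr ⟨Finset.mem_univ (z.2.1 0),
          (show G.s (z.2.1 0) = a from hz)⟩) h'
    · symm
      refine Finset.sum_eq_zero fun x hx => ?_
      rw [ag_single, if_neg, map_zero]
      intro hh
      apply hz
      rw [← (Finset.mem_filter.mp hx).2, ← hh]
      rfl
  one := by
    ext z : 1
    refine LinearMap.ext_ring ?_
    simp only [LinearMap.comp_apply, lsingle_apply, LinearMap.sum_apply, Module.End.one_apply]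
    rw [Finset.sum_eq_single z.2.st]
    · rw [av_single, if_pos rfl]
    · intro x _ hx
      rw [av_single, if_neg (Ne.symm hx)]
    · intro h'
      exact absurd (Finset.mem_univ _) h'

/-- An algebra homomorphism from a family. -/
noncomputable def ofFam {L : Type v} [Ring L] [Algebra k L] (f : Fam k G L) : LPA k G →ₐ[k] L :=
  RingQuot.liftAlgHom k ⟨FreeAlgebra.lift k (fun y : Gen V E => match y with
    | Gen.v a => f.v a
    | Gen.e x => f.e x
    | Gen.g x => f.g x), by
    intro a b h
    cases h with
    | vv a b =>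
      rw [map_mul, FreeAlgebra.lift_ι_apply, FreeAlgebra.lift_ι_apply]
      simp only [f.vv]
      split_ifs <;> simp
    | se x => simp [f.se]
    | er x => simp [f.er]
    | rg x => simp [f.rg]
    | gs x => simp [f.gs]
    | ck1 x y =>
      rw [map_mul, FreeAlgebra.lift_ι_apply, FreeAlgebra.lift_ι_apply]
      simp only [f.ck1]
      split_ifs <;> simp
    | ck2 a h => simp [f.ck2 a h]
    | one => simp [f.one]⟩

lemma ofFam_gen {L : Type v} [Ring L] [Algebra k L] (f : Fam k G L) (y : Gen V E) :
    ofFam k G f (gen k G y) = match y with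
    | Gen.v a => f.v a
    | Gen.e x => f.e x
    | Gen.g x => f.g x := by
  rw [gen, ofFam, RingQuot.liftAlgHom_mkAlgHom_apply, FreeAlgebra.lift_ι_apply]

lemma ofFam_pe {L : Type v} [Ring L] [Algebra k L] (f : Fam k G L) (p : Pa G) :
    ofFam k G f ((canon k G).pe p) = f.pe p := by
  obtain ⟨⟨a, l⟩, hp⟩ := p
  change ofFam k G f ((canon k G).pl a l) = f.pl a l
  clear hp
  induction l with
  | nil => exact ofFam_gen k G f (Gen.v a)
  | cons x l ih =>
    change ofFam k G f ((canon k G).pl a l * gen k G (Gen.e x)) = f.pl a l * f.e x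
    rw [map_mul, ih, ofFam_gen]

/-- concatenation of a path and an infinite path -/
def catInf : ∀ (l : List E) (a : V) (_ : ok G a l) (ξ : Inf G) (_ : rng G a l = ξ.st),
    {η : Inf G // η.st = a}
  | [], _, _, ξ, h => ⟨ξ, h.symm⟩
  | x :: l, a, hp, ξ, h => catInf l a hp.1 (ξ.cons x h) hp.2.symm

lemma catInf_spec : ∀ (l : List E) (a : V) (hp : ok G a l) (ξ : Inf G) (h : rng G a l = ξ.st)
    (i : ℕ), (∀ hi : i < l.length, (catInf G l a hp ξ h).1.1 i = l[l.length - 1 - i]'(by omega)) ∧
      (catInf G l a hp ξ h).1.1 (l.length + i) = ξ.1 i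
  | [], _, _, ξ, h, i => by
    refine ⟨fun hi => absurd hi (by simp), ?_⟩
    simp [catInf]
  | x :: l, a, hp, ξ, h, i => by
    have ih := fun i => catInf_spec l a hp.1 (ξ.cons x h) hp.2.symm i
    refine ⟨fun hi => ?_, ?_⟩
    · rcases Nat.lt_succ_iff_lt_or_eq.mp hi with hi' | rfl
      · have h1 := (ih i).1 hi'
        change (catInf G l a hp.1 (ξ.cons x h) hp.2.symm).1.1 i = _
        rw [h1]
        have h2 : (x :: l).length - 1 - i = (l.length - 1 - i) + 1 := by
          simp only [List.length_cons]
          omega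
        simp only [h2, List.getElem_cons_succ]
      · have h1 := (ih 0).2
        change (catInf G l a hp.1 (ξ.cons x h) hp.2.symm).1.1 l.length = _
        rw [add_zero] at h1
        rw [h1]
        simp [Inf.cons]
    · have h1 := (ih (i + 1)).2
      change (catInf G l a hp.1 (ξ.cons x h) hp.2.symm).1.1 (l.length + 1 + i) = _
      rw [show l.length + 1 + i = l.length + (i + 1) by ring, h1]
      rfl

lemma catInf_inj (l l' : List E) (a b : V) (hp : ok G a l) (hp' : ok G b l') (ξ : Inf G)
    (h : rng G a l = ξ.st) (h' : rng G b l' = ξ.st) (hl : l.length = l'.length)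
    (he : (catInf G l a hp ξ h).1 = (catInf G l' b hp' ξ h').1) : a = b ∧ l = l' := by
  constructor
  · rw [← (catInf G l a hp ξ h).2, he, (catInf G l' b hp' ξ h').2]
  · apply List.ext_getElem hl
    intro i h1 h2
    have h3 := (catInf_spec G l a hp ξ h (l.length - 1 - i)).1 (by omega)
    have h4 := (catInf_spec G l' b hp' ξ h' (l.length - 1 - i)).1 (by omega)
    rw [he, h4] at h3
    have h5 : l.length - 1 - (l.length - 1 - i) = i := by omega
    have h6 : l'.length - 1 - (l.length - 1 - i) = i := by omega
    simp only [h5, h6] at h3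
    exact h3.symm

lemma pe_action (hG : ∀ a : V, ∃ x : E, G.s x = a) (l : List E) :
    ∀ (a : V) (hp : ok G a l) (n : ℤ) (ξ : Inf G) (c : k),
    (opFam k G hG).pl a l (single (n, ξ) c) =
      open Classical in if h : rng G a l = ξ.st then
        single (n + l.length, (catInf G l a hp ξ h).1) c else 0 := by
  classical
  induction l with
  | nil =>
    intro a hp n ξ c
    change av k G a _ = _
    rw [av_single]
    by_cases h : ξ.st = a
    · rw [if_pos h, dif_pos (show rng G a [] = ξ.st from h.symm)]
      simp [catInf]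
    · rw [if_neg h, dif_neg]
      exact fun hh => h hh.symm
  | cons x l ih =>
    intro a hp n ξ c
    change ((opFam k G hG).pl a l) (ae k G x (single (n, ξ) c)) = _
    rw [ae_single]
    by_cases h : G.r x = ξ.st
    · rw [dif_pos h, ih a hp.1 (n + 1) (ξ.cons x h) c,
        dif_pos (show rng G a l = (Inf.cons x ξ h).st from hp.2.symm),
        dif_pos (show rng G a (x :: l) = ξ.st from h)]
      have h1 : (n + 1 + (l.length : ℤ)) = n + ((x :: l).length : ℤ) := by
        push_cast [List.length_cons]
        ring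
      rw [h1]
      rfl
    · rw [dif_neg h, map_zero, dif_neg]
      exact h

theorem opFam_indep (hG : ∀ a : V, ∃ x : E, G.s x = a) : (opFam k G hG).Indep := by
  classical
  change Function.Injective (Finsupp.linearCombination k (opFam k G hG).pe)
  rw [injective_iff_map_eq_zero]
  intro c hc
  ext p
  rw [Finsupp.zero_apply]
  -- an infinite path from `p.tgt`
  obtain ⟨ed, hed⟩ := Classical.axiomOfChoice hG
  let ξ : Inf G := ⟨fun i => Nat.rec (ed p.tgt) (fun _ x => ed (G.r x)) i, fun i => (hed _).symm⟩
  have hξ : ξ.st = p.tgt := hed _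
  have h1 := LinearMap.congr_fun hc (single ((0 : ℤ), ξ) (1 : k))
  rw [Finsupp.linearCombination_apply, Finsupp.sum, LinearMap.sum_apply, LinearMap.zero_apply] at h1
  have h2 := DFunLike.congr_fun h1 ((0 : ℤ) + (p.1.2.length : ℤ), (catInf G p.1.2 p.1.1 p.2 ξ hξ.symm).1)
  rw [Finsupp.finsetSum_apply, Finsupp.zero_apply] at h2
  rw [Finset.sum_eq_single p] at h2
  · rw [LinearMap.smul_apply, Finsupp.smul_apply] at h2
    have h3 : (opFam k G hG).pe p (single ((0 : ℤ), ξ) (1 : k)) =
        single ((0 : ℤ) + (p.1.2.length : ℤ), (catInf G p.1.2 p.1.1 p.2 ξ hξ.symm).1) 1 := by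
      have := pe_action k G hG p.1.2 p.1.1 p.2 0 ξ 1
      rw [dif_pos (show rng G p.1.1 p.1.2 = ξ.st from hξ.symm)] at this
      exact this
    rw [h3, Finsupp.single_eq_same] at h2
    simpa using h2
  · intro q hq hqp
    rw [LinearMap.smul_apply, Finsupp.smul_apply]
    have := pe_action k G hG q.1.2 q.1.1 q.2 0 ξ 1
    have h3 : (opFam k G hG).pe q (single ((0 : ℤ), ξ) (1 : k)) =
      (opFam k G hG).pl q.1.1 q.1.2 (single ((0 : ℤ), ξ) (1 : k)) := rfl
    rw [h3, this]
    split_ifs with h
    · rw [Finsupp.single_eq_of_ne]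
      · simp
      · intro hh
        rw [Prod.mk.injEq] at hh
        have h4 : p.1.2.length = q.1.2.length := by
          have := hh.1
          omega
        obtain ⟨h5, h6⟩ := catInf_inj G p.1.2 q.1.2 p.1.1 q.1.1 p.2 q.2 ξ hξ.symm h h4 hh.2
        exact hqp (Subtype.ext (Prod.ext h5.symm h6.symm))
    · simp
  · intro hp
    rw [Finsupp.notMem_support_iff.mp hp]
    simp

theorem canon_indep (hG : ∀ a : V, ∃ x : E, G.s x = a) : (canon k G).Indep := by
  have h1 := opFam_indep k G hG
  have h2 : (opFam k G hG).pe = (ofFam k G (opFam k G hG)).toLinearMap ∘ (canon k G).pe := by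
    funext p
    exact (ofFam_pe k G (opFam k G hG) p).symm
  rw [Fam.Indep, h2] at h1
  exact LinearIndependent.of_comp _ h1

end Indep

end Pool.Agent.Helper92.LV
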