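import Mathlib
import Pool.Agent.Helper92.LV.Ops

set_option autoImplicit false

/-!
# Module C1: the monoid `t^i z^j` with `z t = t^M z` and its monoid algebra

`(t^i z^j)(t^i' z^j') = t^(i + M^j i') z^(j+j')`.  For `M ≥ 1` it is ordered lexicographically by
`(j, i)` and multiplication is strictly monotone on both sides, so its monoid algebra over a field
has no zero divisors (Mathlib: `TwoUniqueProds`/`UniqueProds` from an order, then
`MonoidAlgebra` `NoZeroDivisors`; or a direct leading term argument).
-/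

namespace Pool.Agent.Helper92.LV

universe u v

/-- The monoid of monomials `t^i z^j` with `z t = t^M z`. -/
@[ext]
structure TZ (M : ℕ) : Type where
  /-- exponent of `t` -/
  i : ℕ
  /-- exponent of `z` -/
  j : ℕ

namespace TZ

variable {M : ℕ}

instance : Mul (TZ M) := ⟨fun a b => ⟨a.i + M ^ a.j * b.i, a.j + b.j⟩⟩

instance : One (TZ M) := ⟨⟨0, 0⟩⟩

@[simp] lemma mul_i (a b : TZ M) : (a * b).i = a.i + M ^ a.j * b.i := rfl
@[simp] lemma mul_j (a b : TZ M) : (a * b).j = a.j + b.j := rfl
@[simp] lemma one_i : (1 : TZ M).i = 0 := rfl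
@[simp] lemma one_j : (1 : TZ M).j = 0 := rfl

instance : Monoid (TZ M) where
  mul_assoc a b c := by
    ext
    · simp only [mul_i, mul_j, pow_add]; ring
    · simp only [mul_j]; ring
  one_mul a := by ext <;> simp
  mul_one a := by ext <;> simp

end TZ

/-- the order: first `j`, then `i` -/
@[reducible] noncomputable def ordTZ (M : ℕ) : LinearOrder (TZ M) :=
  LinearOrder.lift' (fun a : TZ M => toLex (a.j, a.i)) (fun a b h => by
    have h1 := toLex.injective h
    rw [Prod.mk.injEq] at h1
    exact TZ.ext h1.2 h1.1)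

theorem uniqueProds_TZ (M : ℕ) (hM : 1 ≤ M) : UniqueProds (TZ M) := by
  letI := ordTZ M
  have hlt : ∀ a b : TZ M, a < b ↔ a.j < b.j ∨ a.j = b.j ∧ a.i < b.i := by
    intro a b
    change toLex (a.j, a.i) < toLex (b.j, b.i) ↔ _
    rw [Prod.Lex.toLex_lt_toLex]
  have h1 : IsRightCancelMul (TZ M) := ⟨fun c a b h => by
    have hi := congrArg TZ.i h
    have hj := congrArg TZ.j h
    simp only [TZ.mul_i, TZ.mul_j] at hi hj
    have hj' : a.j = b.j := by omega
    rw [hj'] at hi
    exact TZ.ext (by omega) hj'⟩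
  have h2 : MulLeftStrictMono (TZ M) := ⟨fun c a b h => by
    change c * a < c * b
    rw [hlt] at h ⊢
    simp only [TZ.mul_i, TZ.mul_j]
    rcases h with h | ⟨h, h'⟩
    · left; omega
    · right
      refine ⟨by omega, ?_⟩
      have : 0 < M ^ c.j := Nat.pow_pos hM
      exact Nat.add_lt_add_left ((Nat.mul_lt_mul_left this).mpr h') _⟩
  exact inferInstance

theorem noZeroDivisors_TZ (k : Type u) [Field k] (M : ℕ) (hM : 1 ≤ M) :
    NoZeroDivisors (MonoidAlgebra k (TZ M)) := by
  haveI := uniqueProds_TZ M hM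
  infer_instance

end Pool.Agent.Helper92.LV
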