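import Mathlib
import Pool.Agent.Helper92.LV.C1

set_option autoImplicit false

/-!
# The left Ore condition for `k[t^i z^j : z t = t^M z]` (by counting dimensions)
-/

namespace Pool.Agent.Helper92.LV

universe u v

section Ore

variable (k : Type u) [Field k] (M : ℕ)

/-- the monomials in a box -/
noncomputable def bx (T N : ℕ) (y : Fin T × Fin N) : MonoidAlgebra k (TZ M) :=
  MonoidAlgebra.of k (TZ M) ⟨y.1, y.2⟩

/-- span of the monomials in a box -/
noncomputable def Bx (T N : ℕ) : Submodule k (MonoidAlgebra k (TZ M)) :=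
  Submodule.span k (Set.range (bx k M T N))

lemma of_linearIndependent : LinearIndependent k (fun m : TZ M => MonoidAlgebra.of k (TZ M) m) := by
  have h := (MonoidAlgebra.basis (TZ M) k).linearIndependent
  convert h using 1
  funext m
  rw [MonoidAlgebra.basis_apply]
  rfl

lemma bx_linearIndependent (T N : ℕ) : LinearIndependent k (bx k M T N) := by
  refine (of_linearIndependent k M).comp (fun y : Fin T × Fin N => (⟨y.1, y.2⟩ : TZ M)) ?_
  intro y y' h
  have h1 := congrArg TZ.i h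
  have h2 := congrArg TZ.j h
  exact Prod.ext (Fin.ext h1) (Fin.ext h2)

lemma of_mem_Bx {T N : ℕ} (m : TZ M) (h1 : m.i < T) (h2 : m.j < N) :
    MonoidAlgebra.of k (TZ M) m ∈ Bx k M T N :=
  Submodule.subset_span ⟨(⟨m.i, h1⟩, ⟨m.j, h2⟩), rfl⟩

lemma Bx_mono {T T' N N' : ℕ} (hT : T ≤ T') (hN : N ≤ N') : Bx k M T N ≤ Bx k M T' N' := by
  apply Submodule.span_le.mpr
  rintro _ ⟨y, rfl⟩
  exact of_mem_Bx k M _ (lt_of_lt_of_le y.1.2 hT) (lt_of_lt_of_le y.2.2 hN)

lemma exists_Bx (a : MonoidAlgebra k (TZ M)) : ∃ T N, a ∈ Bx k M T N := by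
  induction a using MonoidAlgebra.induction_on with
  | of m => exact ⟨m.i + 1, m.j + 1, of_mem_Bx k M m (by omega) (by omega)⟩
  | add a b ha hb =>
    obtain ⟨T, N, h1⟩ := ha
    obtain ⟨T', N', h2⟩ := hb
    exact ⟨max T T', max N N', add_mem (Bx_mono k M (le_max_left _ _) (le_max_left _ _) h1)
      (Bx_mono k M (le_max_right _ _) (le_max_right _ _) h2)⟩
  | smul r a ha =>
    obtain ⟨T, N, h1⟩ := ha
    exact ⟨T, N, Submodule.smul_mem _ _ h1⟩

lemma mul_mem_Bx (hM : 1 ≤ M) {T N m n : ℕ} {x a : MonoidAlgebra k (TZ M)} (hx : x ∈ Bx k M T N)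
    (ha : a ∈ Bx k M m n) : x * a ∈ Bx k M (T + M ^ N * m) (N + n) := by
  have h1 : x * a ∈ Bx k M T N * Bx k M m n := Submodule.mul_mem_mul hx ha
  have h2 : Bx k M T N * Bx k M m n ≤ Bx k M (T + M ^ N * m) (N + n) := by
    rw [Bx, Bx, Submodule.span_mul_span]
    apply Submodule.span_le.mpr
    rintro _ ⟨_, ⟨y, rfl⟩, _, ⟨y', rfl⟩, rfl⟩
    change MonoidAlgebra.of k (TZ M) _ * MonoidAlgebra.of k (TZ M) _ ∈ Bx k M _ _
    rw [← map_mul]
    refine of_mem_Bx k M _ ?_ ?_
    · rw [TZ.mul_i]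
      have h3 : M ^ (y.2 : ℕ) ≤ M ^ N := Nat.pow_le_pow_right hM y.2.2.le
      have h4 : M ^ (y.2 : ℕ) * (y'.1 : ℕ) ≤ M ^ N * m := Nat.mul_le_mul h3 y'.1.2.le
      have := y.1.2
      change (y.1 : ℕ) + M ^ (y.2 : ℕ) * (y'.1 : ℕ) < _
      omega
    · rw [TZ.mul_j]
      have := y.2.2
      have := y'.2.2
      change (y.2 : ℕ) + (y'.2 : ℕ) < _
      omega
  exact h2 h1

theorem ore_TZ (hM : 1 ≤ M) (a b : MonoidAlgebra k (TZ M))
    (hb : b ≠ 0) : ∃ x y : MonoidAlgebra k (TZ M), y ≠ 0 ∧ x * b = y * a := by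
  haveI := noZeroDivisors_TZ k M hM
  obtain ⟨m1, n1, ha⟩ := exists_Bx k M a
  obtain ⟨m2, n2, hb'⟩ := exists_Bx k M b
  set m := max m1 m2
  set n := max n1 n2
  have ha : a ∈ Bx k M m n := Bx_mono k M (le_max_left _ _) (le_max_left _ _) ha
  have hb' : b ∈ Bx k M m n := Bx_mono k M (le_max_right _ _) (le_max_right _ _) hb'
  -- choice of the box
  set N := n + 1 with hN
  set T := (M ^ N * m) * (N + n) + 1 with hT
  have hcount : (T + M ^ N * m) * (N + n) < 2 * (T * N) := by
    have h1 : 2 * (T * N) = T * (N + n) + T := by rw [hN]; ring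
    rw [h1, add_mul]
    have h2 : (M ^ N * m) * (N + n) < T := by rw [hT]; exact Nat.lt_succ_self _
    omega
  -- the family
  let w : (Fin T × Fin N) ⊕ (Fin T × Fin N) → Bx k M (T + M ^ N * m) (N + n) := fun y =>
    match y with
    | Sum.inl y => ⟨bx k M T N y * b, mul_mem_Bx k M hM (Submodule.subset_span ⟨y, rfl⟩) hb'⟩
    | Sum.inr y => ⟨bx k M T N y * a, mul_mem_Bx k M hM (Submodule.subset_span ⟨y, rfl⟩) ha⟩
  haveI hfin : Module.Finite k (Bx k M (T + M ^ N * m) (N + n)) := by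
    rw [Bx]
    exact Module.Finite.span_of_finite k (Set.finite_range _)
  have hrank : Module.finrank k (Bx k M (T + M ^ N * m) (N + n)) ≤ (T + M ^ N * m) * (N + n) := by
    have := finrank_range_le_card (R := k) (bx k M (T + M ^ N * m) (N + n))
    rw [Set.finrank, Fintype.card_prod, Fintype.card_fin, Fintype.card_fin] at this
    exact this
  have hdep : ¬ LinearIndependent k w := by
    intro h
    have h1 := h.fintype_card_le_finrank
    simp only [Fintype.card_sum, Fintype.card_prod, Fintype.card_fin] at h1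
    omega
  rw [Fintype.not_linearIndependent_iff] at hdep
  obtain ⟨g, hg, i, hi⟩ := hdep
  set x := ∑ y, g (Sum.inl y) • bx k M T N y with hx
  set y := -∑ y, g (Sum.inr y) • bx k M T N y with hy
  have hxy : x * b = y * a := by
    have h1 := congrArg (Subtype.val) hg
    rw [Fintype.sum_sum_type] at h1
    simp only [w, Submodule.coe_add, Submodule.coe_sum, Submodule.coe_smul, Submodule.coe_zero]
      at h1
    rw [hx, hy, neg_mul, Finset.sum_mul, Finset.sum_mul, eq_neg_iff_add_eq_zero]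
    simpa only [smul_mul_assoc] using h1
  refine ⟨x, y, fun hy0 => ?_, hxy⟩
  have hli := Fintype.linearIndependent_iff.mp (bx_linearIndependent k M T N)
  rw [hy0, zero_mul] at hxy
  have hx0 : x = 0 := (mul_eq_zero.mp hxy).resolve_right hb
  have h1 := hli (fun y => g (Sum.inl y)) hx0
  have h2 := hli (fun y => g (Sum.inr y)) (neg_eq_zero.mp hy0)
  rcases i with i | i
  · exact hi (h1 i)
  · exact hi (h2 i)

end Ore

end Pool.Agent.Helper92.LV
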