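import Mathlib
import Pool.Agent.Helper92.LV.C2

set_option autoImplicit false

/-!
# The division ring `D` with a good free monoid
-/

namespace Pool.Agent.Helper92.LV

universe u v

open scoped nonZeroDivisors

section Words

variable {A : Type} (M : ℕ) (ν : A → ℕ)

/-- base `M` value of a word (reversed list) -/
def Nw : List A → ℕ
  | [] => 0
  | a :: l => Nw l + M ^ l.length * ν a

/-- the monomial of a word -/
def mon (w : List A) : TZ M := ⟨Nw M ν w, w.length⟩

variable {M ν}

lemma Nw_lt (hν : ∀ a, ν a < M) (l : List A) : Nw M ν l < M ^ l.length := by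
  induction l with
  | nil => simp [Nw]
  | cons a l ih =>
    rw [Nw, List.length_cons, pow_succ]
    have h1 : ν a + 1 ≤ M := hν a
    calc Nw M ν l + M ^ l.length * ν a < M ^ l.length + M ^ l.length * ν a := by omega
      _ = M ^ l.length * (ν a + 1) := by ring
      _ ≤ M ^ l.length * M := Nat.mul_le_mul_left _ h1

/-- uniqueness of the last digit -/
lemma digit {a b x y n : ℕ} (hx : x < n) (hy : y < n) (h : x + n * a = y + n * b) :
    x = y ∧ a = b := by
  have hn : 0 < n := by omega
  have h1 : (x + n * a) % n = x := by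
    rw [Nat.add_mul_mod_self_left, Nat.mod_eq_of_lt hx]
  have h2 : (y + n * b) % n = y := by
    rw [Nat.add_mul_mod_self_left, Nat.mod_eq_of_lt hy]
  have h3 : x = y := by rw [← h1, h, h2]
  subst h3
  exact ⟨rfl, Nat.eq_of_mul_eq_mul_left hn (by omega)⟩

lemma mon_injective (hν : ∀ a, ν a < M) (hinj : Function.Injective ν) :
    Function.Injective (mon M ν) := by
  intro l
  induction l with
  | nil =>
    intro m h
    have := congrArg TZ.j h
    change 0 = m.length at this
    exact (List.length_eq_zero_iff.mp this.symm).symm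
  | cons a l ih =>
    intro m h
    have h1 := congrArg TZ.j h
    have h2 := congrArg TZ.i h
    cases m with
    | nil => exact absurd h1 (by simp [mon])
    | cons b m =>
      change l.length + 1 = m.length + 1 at h1
      change Nw M ν l + M ^ l.length * ν a = Nw M ν m + M ^ m.length * ν b at h2
      have h3 : l.length = m.length := by omega
      have h4 := Nw_lt hν m
      rw [← h3] at h2 h4
      obtain ⟨h5, h6⟩ := digit (Nw_lt hν l) h4 h2
      have h7 : l = m := by
        apply ih
        exact TZ.ext h5 h3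
      rw [h7, hinj h6]

/-- shifted monomials -/
def sh (M : ℕ) (ν : A → ℕ) (g : ℕ) : List A → TZ M
  | [] => 1
  | a :: l => ⟨Nw M ν l + M ^ l.length * (ν a + g), l.length + 1⟩

lemma sh_inj (hν : ∀ a, ν a < M) (hinj : Function.Injective ν) {g : ℕ}
    {a b : A} {l m : List A} (h : sh M ν g (a :: l) = sh M ν g (b :: m)) : a = b ∧ l = m := by
  have h1 := congrArg TZ.j h
  have h2 := congrArg TZ.i h
  change l.length + 1 = m.length + 1 at h1
  change Nw M ν l + M ^ l.length * (ν a + g) = Nw M ν m + M ^ m.length * (ν b + g) at h2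
  have h3 : l.length = m.length := by omega
  have h4 := Nw_lt hν m
  rw [← h3] at h2 h4
  obtain ⟨h5, h6⟩ := digit (Nw_lt hν l) h4 h2
  refine ⟨hinj (by omega), mon_injective hν hinj (TZ.ext h5 h3)⟩

/-- comparison of shifted and unshifted monomials -/
lemma sh_eq_mon (hν : ∀ a, ν a < M) {g : ℕ} {a : A} {l w : List A}
    (h : sh M ν g (a :: l) = mon M ν w) : ∃ b m, w = b :: m ∧ ν b = ν a + g := by
  cases w with
  | nil =>
    have h1 := congrArg TZ.j h
    exact absurd h1 (by simp [mon, sh])
  | cons b m =>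
    refine ⟨b, m, rfl, ?_⟩
    have h1 := congrArg TZ.j h
    have h2 := congrArg TZ.i h
    change l.length + 1 = m.length + 1 at h1
    change Nw M ν l + M ^ l.length * (ν a + g) = Nw M ν m + M ^ m.length * ν b at h2
    have h3 : l.length = m.length := by omega
    have h4 := Nw_lt hν m
    rw [← h3] at h2 h4
    exact (digit (Nw_lt hν l) h4 h2).2.symm

end Words

section RPart

variable (k : Type u) [Field k] {A : Type} {M : ℕ} {ν : A → ℕ}


/-- the letters in the ring -/
noncomputable def δR (M : ℕ) (ν : A → ℕ) (a : A) : MonoidAlgebra k (TZ M) :=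
  MonoidAlgebra.of k (TZ M) ⟨ν a, 1⟩

lemma dl_δR (w : List A) : dl (δR k M ν) w = MonoidAlgebra.of k (TZ M) (mon M ν w) := by
  induction w with
  | nil =>
    change (1 : (MonoidAlgebra k (TZ M))) = MonoidAlgebra.of k (TZ M) 1
    rw [map_one]
  | cons a l ih =>
    change dl (δR k M ν) l * δR k M ν a = _
    rw [ih, δR, ← map_mul]
    congr 1

/-- the element with coefficients `c` -/
noncomputable def Uc (M : ℕ) (ν : A → ℕ) (c : List A →₀ k) : MonoidAlgebra k (TZ M) :=
  Finsupp.linearCombination k (fun w => MonoidAlgebra.of k (TZ M) (mon M ν w)) c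

/-- `z`-division -/
noncomputable def Ud (M : ℕ) (ν : A → ℕ) (c : List A →₀ k) : MonoidAlgebra k (TZ M) :=
  Finsupp.linearCombination k (fun w => match w with
    | [] => 0
    | a :: l => MonoidAlgebra.of k (TZ M) ⟨Nw M ν l + M ^ l.length * ν a, l.length⟩) c

lemma Uc_eq (c : List A →₀ k) :
    Uc k M ν c = c [] • (1 : (MonoidAlgebra k (TZ M))) + Ud k M ν c * MonoidAlgebra.of k (TZ M) ⟨0, 1⟩ := by
  induction c using Finsupp.induction_linear with
  | zero => simp [Uc, Ud]
  | add a b ha hb =>
    have h1 : Uc k M ν (a + b) = Uc k M ν a + Uc k M ν b := map_add _ _ _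
    have h2 : Ud k M ν (a + b) = Ud k M ν a + Ud k M ν b := map_add _ _ _
    rw [h1, h2, ha, hb, Finsupp.add_apply, add_smul, add_mul]
    abel
  | single w r =>
    rw [Uc, Ud, Finsupp.linearCombination_single, Finsupp.linearCombination_single]
    cases w with
    | nil =>
      have : mon M ν ([] : List A) = 1 := rfl
      rw [this, map_one]
      simp
    | cons a l =>
      rw [Finsupp.single_eq_of_ne (by simp), zero_smul, zero_add, smul_mul_assoc, ← map_mul]
      congr 2

lemma Ud_mul_sh (g : ℕ) (c : List A →₀ k) (hc : c [] = 0) :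
    Ud k M ν c * MonoidAlgebra.of k (TZ M) ⟨g, 0⟩ * MonoidAlgebra.of k (TZ M) ⟨0, 1⟩ =
      Finsupp.linearCombination k (fun w => MonoidAlgebra.of k (TZ M) (sh M ν g w)) c := by
  have key : ∀ c : List A →₀ k, Ud k M ν c * MonoidAlgebra.of k (TZ M) ⟨g, 0⟩ * MonoidAlgebra.of k (TZ M) ⟨0, 1⟩ + c [] • (1 : (MonoidAlgebra k (TZ M))) =
      Finsupp.linearCombination k (fun w => MonoidAlgebra.of k (TZ M) (sh M ν g w)) c := by
    intro c
    induction c using Finsupp.induction_linear with
    | zero => simp [Ud]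
    | add a b ha hb =>
      have h2 : Ud k M ν (a + b) = Ud k M ν a + Ud k M ν b := map_add _ _ _
      rw [h2, map_add, ← ha, ← hb, Finsupp.add_apply, add_smul, add_mul, add_mul]
      abel
    | single w r =>
      rw [Ud, Finsupp.linearCombination_single, Finsupp.linearCombination_single]
      cases w with
      | nil =>
        have : sh M ν g ([] : List A) = 1 := rfl
        rw [this, map_one]
        simp
      | cons a l =>
        rw [Finsupp.single_eq_of_ne (by simp), zero_smul, add_zero, smul_mul_assoc,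
          smul_mul_assoc, ← map_mul, ← map_mul]
        congr 2
        apply TZ.ext
        · simp only [TZ.mul_i, TZ.mul_j, sh]
          ring
        · rfl
  have := key c
  rw [hc, zero_smul, add_zero] at this
  exact this

/-- elements `z x` have no monomials without `z` -/
lemma coeff_z_mul (x : (MonoidAlgebra k (TZ M))) (m : TZ M) (hm : m.j = 0) : (MonoidAlgebra.of k (TZ M) ⟨0, 1⟩ * x).coeff m = 0 := by
  change (MonoidAlgebra.single (⟨0, 1⟩ : TZ M) (1 : k) * x).coeff m = 0
  refine MonoidAlgebra.coeff_single_mul_of_forall_mul_ne _ _ fun d hd => ?_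
  have := congrArg TZ.j hd
  rw [TZ.mul_j] at this
  change 1 + d.j = m.j at this
  omega

/-- The core of (P2). -/
theorem core (hM : 1 ≤ M) (hν : ∀ a, ν a < M) (hinj : Function.Injective ν)
    {e f : A} (hef : ν e < ν f)
    (hsid : ∀ a b, ν b + ν e = ν a + ν f → a = e)
    (s r : (MonoidAlgebra k (TZ M))) (hs : s ≠ 0) (c c' : List A →₀ k)
    (h1 : s * Uc k M ν c = r * δR k M ν e) (h2 : s * Uc k M ν c' = r * δR k M ν f) :
    ∃ o : List A →₀ k, Uc k M ν c = Uc k M ν o * δR k M ν e := by
  classical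
  haveI := noZeroDivisors_TZ k M hM
  haveI : IsCancelMulZero (MonoidAlgebra k (TZ M)) := NoZeroDivisors.toIsCancelMulZero
  set g := ν f - ν e with hg
  have hz : MonoidAlgebra.of k (TZ M) ⟨0, 1⟩ ≠ (0 : (MonoidAlgebra k (TZ M))) := by
    change MonoidAlgebra.single (⟨0, 1⟩ : TZ M) (1 : k) ≠ 0
    rw [MonoidAlgebra.single_ne_zero]
    exact one_ne_zero
  set r' := r * MonoidAlgebra.of k (TZ M) ⟨ν e, 0⟩ with hr'
  have hδe : δR k M ν e = MonoidAlgebra.of k (TZ M) ⟨ν e, 0⟩ * MonoidAlgebra.of k (TZ M) ⟨0, 1⟩ := by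
    rw [δR, ← map_mul]
    congr 1
  have hδf : δR k M ν f = MonoidAlgebra.of k (TZ M) ⟨ν e, 0⟩ * MonoidAlgebra.of k (TZ M) ⟨g, 0⟩ * MonoidAlgebra.of k (TZ M) ⟨0, 1⟩ := by
    rw [δR, ← map_mul, ← map_mul]
    congr 1
    apply TZ.ext
    · simp only [TZ.mul_i, TZ.mul_j, pow_zero, one_mul, mul_zero, add_zero]
      omega
    · rfl
  rw [hδe, ← mul_assoc, ← hr', Uc_eq] at h1
  rw [hδf, ← mul_assoc, ← mul_assoc, ← hr', Uc_eq] at h2
  set c0 := c [] with hc0
  set c1 := c' [] with hc1
  set u' := Ud k M ν c with hu'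
  set v' := Ud k M ν c' with hv'
  -- the constant coefficient vanishes
  have hc00 : c0 = 0 := by
    by_contra hne
    have h3 : c0 • s = (r' - s * u') * MonoidAlgebra.of k (TZ M) ⟨0, 1⟩ := by
      rw [sub_mul, ← h1, mul_add, mul_smul_comm, mul_one, mul_assoc]
      abel
    set s1 := c0⁻¹ • (r' - s * u') with hs1
    have h4 : s = s1 * MonoidAlgebra.of k (TZ M) ⟨0, 1⟩ := by
      rw [hs1, smul_mul_assoc, ← h3, smul_smul, inv_mul_cancel₀ hne, one_smul]
    have hs10 : s1 ≠ 0 := by
      intro h
      rw [h, zero_mul] at h4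
      exact hs h4
    have h5 : r' = s1 * (c0 • (1 : (MonoidAlgebra k (TZ M))) + MonoidAlgebra.of k (TZ M) ⟨0, 1⟩ * u') := by
      apply mul_right_cancel₀ hz
      rw [← h1, h4]
      simp only [mul_add, add_mul, mul_smul_comm, smul_mul_assoc, mul_one, mul_assoc]
    have h6 : s1 * (c1 • (1 : (MonoidAlgebra k (TZ M))) + MonoidAlgebra.of k (TZ M) ⟨0, 1⟩ * v') = r' * MonoidAlgebra.of k (TZ M) ⟨g, 0⟩ := by
      apply mul_right_cancel₀ hz
      rw [← h2, h4]
      simp only [mul_add, add_mul, mul_smul_comm, smul_mul_assoc, mul_one, mul_assoc]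
    rw [h5, mul_assoc] at h6
    have h7 := mul_left_cancel₀ hs10 h6
    have h8 := congrArg (fun x => MonoidAlgebra.coeff x (⟨g, 0⟩ : TZ M)) h7
    simp only [add_mul, MonoidAlgebra.coeff_add, Finsupp.add_apply, mul_assoc] at h8
    rw [coeff_z_mul k v' ⟨g, 0⟩ rfl, coeff_z_mul k (u' * MonoidAlgebra.of k (TZ M) ⟨g, 0⟩) ⟨g, 0⟩ rfl, add_zero,
      add_zero, smul_mul_assoc, one_mul, MonoidAlgebra.coeff_smul_apply,
      MonoidAlgebra.coeff_smul_apply] at h8
    have h9 : (1 : (MonoidAlgebra k (TZ M))).coeff (⟨g, 0⟩ : TZ M) = 0 := by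
      rw [MonoidAlgebra.one_def, MonoidAlgebra.coeff_single, Finsupp.single_eq_of_ne]
      intro h
      have := congrArg TZ.i h
      change g = 0 at this
      omega
    have h10 : (MonoidAlgebra.of k (TZ M) (⟨g, 0⟩ : TZ M)).coeff (⟨g, 0⟩ : TZ M) = 1 := by
      change (MonoidAlgebra.single (⟨g, 0⟩ : TZ M) (1 : k)).coeff _ = 1
      rw [MonoidAlgebra.coeff_single, Finsupp.single_eq_same]
    rw [h9, h10, smul_zero, smul_eq_mul, mul_one] at h8
    exact hne h8.symm
  rw [hc00, zero_smul, zero_add, ← mul_assoc] at h1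
  have h3 : s * u' = r' := mul_right_cancel₀ hz h1
  have h4 : c1 • (1 : (MonoidAlgebra k (TZ M))) + v' * MonoidAlgebra.of k (TZ M) ⟨0, 1⟩ = u' * MonoidAlgebra.of k (TZ M) ⟨g, 0⟩ * MonoidAlgebra.of k (TZ M) ⟨0, 1⟩ := by
    apply mul_left_cancel₀ hs
    rw [h2, ← h3]
    simp only [mul_assoc]
  rw [← Uc_eq, Ud_mul_sh k g c (hc0.symm.trans hc00)] at h4
  -- the support of `c`
  have h5 : ∀ w ∈ c.support, ∃ l, w = e :: l := by
    intro w hw
    cases w with
    | nil =>
      rw [Finsupp.mem_support_iff] at hw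
      exact absurd (hc0.symm.trans hc00) hw
    | cons a l =>
      refine ⟨l, ?_⟩
      have h6 := congrArg (fun x => MonoidAlgebra.coeff x (sh M ν g (a :: l))) h4
      simp only [Uc, Finsupp.linearCombination_apply, Finsupp.sum, MonoidAlgebra.coeff_sum,
        Finsupp.finsetSum_apply, MonoidAlgebra.coeff_smul_apply] at h6
      have hof : ∀ m m' : TZ M, (MonoidAlgebra.of k (TZ M) m).coeff m' = if m = m' then (1 : k) else 0 := by
        intro m m'
        change (MonoidAlgebra.single m (1 : k)).coeff m' = _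
        rw [MonoidAlgebra.coeff_single, Finsupp.single_apply]
      simp only [hof] at h6
      rw [Finset.sum_eq_single_of_mem (a :: l) hw] at h6
      · rw [if_pos rfl, smul_eq_mul, mul_one] at h6
        have h7 : ∑ x ∈ c'.support, c' x • (if mon M ν x = sh M ν g (a :: l) then (1 : k) else 0)
            ≠ 0 := by
          rw [h6]
          exact Finsupp.mem_support_iff.mp hw
        obtain ⟨x, -, hx⟩ := Finset.exists_ne_zero_of_sum_ne_zero h7
        have h8 : mon M ν x = sh M ν g (a :: l) := by
          by_contra h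
          rw [if_neg h, smul_zero] at hx
          exact hx rfl
        obtain ⟨b, m, -, hb⟩ := sh_eq_mon hν h8.symm
        have : a = e := hsid a b (by omega)
        rw [this]
      · intro x hx hne
        rw [if_neg, smul_zero]
        intro h
        cases x with
        | nil =>
          rw [Finsupp.mem_support_iff] at hx
          exact absurd (hc0.symm.trans hc00) hx
        | cons b m =>
          obtain ⟨h8, h9⟩ := sh_inj hν hinj h
          exact hne (by rw [h8, h9])
  refine ⟨c.mapDomain List.tail, ?_⟩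
  have h6 : Uc k M ν c = ∑ w ∈ c.support, c w • (MonoidAlgebra.of k (TZ M) (mon M ν w.tail) * δR k M ν e) := by
    rw [Uc, Finsupp.linearCombination_apply, Finsupp.sum]
    refine Finset.sum_congr rfl fun w hw => ?_
    obtain ⟨l, rfl⟩ := h5 w hw
    rw [List.tail_cons, ← dl_δR, ← dl_δR]
    rfl
  rw [h6, Uc, Finsupp.linearCombination_mapDomain, Finsupp.linearCombination_apply, Finsupp.sum,
    Finset.sum_mul]
  refine Finset.sum_congr rfl fun w _ => ?_
  rw [smul_mul_assoc]
  rfl

end RPart

section Sidon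

/-- powers of two form a Sidon set -/
lemma sidon {a b e f : ℕ} (hef : e ≠ f) (h : 2 ^ b + 2 ^ e = 2 ^ a + 2 ^ f) : a = e := by
  have hinj := Finset.geomSum_injective (n := 2) le_rfl
  have two : ∀ x y : ℕ, x ≠ y → ∑ i ∈ ({x, y} : Finset ℕ), 2 ^ i = 2 ^ x + 2 ^ y :=
    fun x y hxy => Finset.sum_pair hxy
  have one : ∀ x : ℕ, ∑ i ∈ ({x + 1} : Finset ℕ), 2 ^ i = 2 ^ x + 2 ^ x := by
    intro x
    rw [Finset.sum_singleton, pow_succ]
    ring
  by_cases hbe : b = e
  · subst hbe
    by_cases haf : a = f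
    · subst haf
      have h1 : ({b + 1} : Finset ℕ) = {a + 1} := hinj (by
        change ∑ i ∈ ({b + 1} : Finset ℕ), 2 ^ i = ∑ i ∈ ({a + 1} : Finset ℕ), 2 ^ i
        rw [one, one, h])
      rw [Finset.singleton_inj] at h1
      omega
    · have h1 : ({b + 1} : Finset ℕ) = {a, f} := hinj (by
        change ∑ i ∈ ({b + 1} : Finset ℕ), 2 ^ i = ∑ i ∈ ({a, f} : Finset ℕ), 2 ^ i
        rw [one, two a f haf, h])
      have h2 := congrArg Finset.card h1
      rw [Finset.card_singleton, Finset.card_pair haf] at h2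
      omega
  · by_cases haf : a = f
    · subst haf
      have h1 : ({b, e} : Finset ℕ) = {a + 1} := hinj (by
        change ∑ i ∈ ({b, e} : Finset ℕ), 2 ^ i = ∑ i ∈ ({a + 1} : Finset ℕ), 2 ^ i
        rw [one, two b e hbe, h])
      have h2 := congrArg Finset.card h1
      rw [Finset.card_singleton, Finset.card_pair hbe] at h2
      omega
    · have h1 : ({b, e} : Finset ℕ) = {a, f} := hinj (by
        change ∑ i ∈ ({b, e} : Finset ℕ), 2 ^ i = ∑ i ∈ ({a, f} : Finset ℕ), 2 ^ i
        rw [two b e hbe, two a f haf, h])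
      have h2 : e ∈ ({a, f} : Finset ℕ) := by
        rw [← h1]
        simp
      rw [Finset.mem_insert, Finset.mem_singleton] at h2
      rcases h2 with h2 | h2
      · exact h2.symm
      · exact absurd h2 hef

end Sidon

theorem exists_div (k : Type u) [Field k] (A : Type) [Fintype A] :
    ∃ (D : Type u) (_ : DivisionRing D) (_ : Algebra k D) (δ : A → D),
      LinearIndependent k (dl δ) ∧
      ∀ (d : D) (e f : A), e ≠ f → d * δ e ∈ W k δ → d * δ f ∈ W k δ → d ∈ W k δ := by
  classical
  let idx := Fintype.equivFin A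
  let ν : A → ℕ := fun a => 2 ^ (idx a : ℕ)
  let M : ℕ := 2 ^ (Fintype.card A)
  have hM : 1 ≤ M := Nat.one_le_two_pow
  have hν : ∀ a, ν a < M := fun a => Nat.pow_lt_pow_right (by norm_num) (idx a).2
  have hinj : Function.Injective ν := by
    intro a b h
    have h1 : (idx a : ℕ) = idx b := Nat.pow_right_injective le_rfl h
    exact idx.injective (Fin.ext h1)
  haveI := noZeroDivisors_TZ k M hM
  haveI hne : Nontrivial (MonoidAlgebra k (TZ M)) := by
    refine ⟨MonoidAlgebra.of k (TZ M) 1, 0, ?_⟩
    change MonoidAlgebra.single (1 : TZ M) (1 : k) ≠ 0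
    rw [MonoidAlgebra.single_ne_zero]
    exact one_ne_zero
  haveI hore : OreLocalization.OreSet (MonoidAlgebra k (TZ M))⁰ := by
    refine (OreLocalization.nonempty_oreSet_iff_of_noZeroDivisors.mpr fun r s => ?_).some
    obtain ⟨x, y, hy, hxy⟩ := ore_TZ k M hM r s (nonZeroDivisors.ne_zero s.2)
    exact ⟨x, ⟨y, mem_nonZeroDivisors_of_ne_zero hy⟩, hxy.symm⟩
  let D := OreLocalization (MonoidAlgebra k (TZ M))⁰ (MonoidAlgebra k (TZ M))
  let ι : MonoidAlgebra k (TZ M) →ₐ[k] D :=
    { (OreLocalization.numeratorRingHom : MonoidAlgebra k (TZ M) →+* D) with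
      commutes' := fun _ => rfl }
  have hι : Function.Injective ι := OreLocalization.numeratorHom_inj
    inf_le_left
  let δ : A → D := fun a => ι (δR k M ν a)
  have hdl : ∀ w, dl δ w = ι (MonoidAlgebra.of k (TZ M) (mon M ν w)) := by
    intro w
    rw [← dl_δR]
    induction w with
    | nil => exact (map_one ι).symm
    | cons a l ih =>
      change dl δ l * δ a = ι (dl (δR k M ν) l * δR k M ν a)
      rw [ih, map_mul]
  have hW : ∀ x : D, x ∈ W k δ ↔ ∃ c, x = ι (Uc k M ν c) := by
    intro x
    have h1 : W k δ = LinearMap.range (Finsupp.linearCombination k (dl δ)) := by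
      rw [Finsupp.range_linearCombination]
      rfl
    have h2 : ∀ c : List A →₀ k, Finsupp.linearCombination k (dl δ) c = ι (Uc k M ν c) := by
      intro c
      rw [Uc, Finsupp.linearCombination_apply, Finsupp.linearCombination_apply, Finsupp.sum,
        Finsupp.sum, map_sum]
      refine Finset.sum_congr rfl fun w _ => ?_
      rw [map_smul, hdl]
    rw [h1, LinearMap.mem_range]
    constructor
    · rintro ⟨c, rfl⟩
      exact ⟨c, h2 c⟩
    · rintro ⟨c, rfl⟩
      exact ⟨c, h2 c⟩
  refine ⟨D, inferInstance, inferInstance, δ, ?_, ?_⟩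
  · have h1 : dl δ = ι.toLinearMap ∘ (fun m : TZ M => MonoidAlgebra.of k (TZ M) m) ∘ (mon M ν) := by
      funext w
      exact hdl w
    rw [h1]
    refine LinearIndependent.map' ?_ _ (LinearMap.ker_eq_bot.mpr hι)
    exact (of_linearIndependent k M).comp _ (mon_injective hν hinj)
  · intro d e f hef h1 h2
    -- symmetric version
    have key : ∀ e f : A, ν e < ν f → d * δ e ∈ W k δ → d * δ f ∈ W k δ → d ∈ W k δ := by
      intro e f hlt h1 h2
      obtain ⟨c, hc⟩ := (hW _).mp h1
      obtain ⟨c', hc'⟩ := (hW _).mp h2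
      obtain ⟨s, r, hs, hsr⟩ : ∃ s r : MonoidAlgebra k (TZ M), s ≠ 0 ∧ ι s * d = ι r := by
        induction d using OreLocalization.ind with
        | _ r s =>
          refine ⟨s, r, nonZeroDivisors.ne_zero s.2, ?_⟩
          change ((s : MonoidAlgebra k (TZ M)) /ₒ 1) * (r /ₒ s) = r /ₒ 1
          exact OreLocalization.mul_cancel
      have h3 : s * Uc k M ν c = r * δR k M ν e := by
        apply hι
        rw [map_mul, map_mul, ← hsr, mul_assoc, ← hc]
      have h4 : s * Uc k M ν c' = r * δR k M ν f := by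
        apply hι
        rw [map_mul, map_mul, ← hsr, mul_assoc, ← hc']
      have hne : (idx e : ℕ) ≠ idx f := by
        intro h
        have : ν e = ν f := by simp only [ν, h]
        omega
      obtain ⟨o, ho⟩ := core k hM hν hinj hlt (fun a b hab => by
        have h5 := sidon hne hab
        exact idx.injective (Fin.ext h5)) s r hs c c' h3 h4
      have hδe : δ e ≠ 0 := by
        intro h
        have h5 : δR k M ν e = 0 := hι (h.trans (map_zero ι).symm)
        change MonoidAlgebra.single (⟨ν e, 1⟩ : TZ M) (1 : k) = 0 at h5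
        rw [MonoidAlgebra.single_eq_zero] at h5
        exact one_ne_zero h5
      refine (hW d).mpr ⟨o, ?_⟩
      apply mul_right_cancel₀ hδe
      rw [hc, ho, map_mul]
    rcases lt_trichotomy (ν e) (ν f) with h | h | h
    · exact key e f h h1 h2
    · exact absurd (hinj h) hef
    · exact key f e h h2 h1

end Pool.Agent.Helper92.LV
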