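import Mathlib
import Pool.Agent.Helper92.LV.M1

set_option autoImplicit false

/-!
# Leading forms in finitely generated submodules of the free `D`-module on the paths
-/

namespace Pool.Agent.Helper92.LV

universe u v

open Finsupp

section KL

variable {V E : Type} [DecidableEq V] {G : Graph V E} {D : Type v} [DivisionRing D]

/-- the part of length `m` -/
noncomputable def part (m : ℕ) : (Pa G →₀ D) →ₗ[D] (Pa G →₀ D) where
  toFun := fun c => c.filter (fun p => p.len = m)
  map_add' := fun _ _ => Finsupp.filter_add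
  map_smul' := fun _ _ => Finsupp.filter_smul

lemma part_apply (m : ℕ) (c : Pa G →₀ D) (p : Pa G) :
    part m c p = if p.len = m then c p else 0 := by
  change (c.filter (fun p => p.len = m)) p = _
  rw [Finsupp.filter_apply]

lemma rmul_ext (x : E) (p : Pa G) (h : G.s x = p.tgt) (c : Pa G →₀ D) :
    rmul G D x c (p.ext x h) = c p := by
  induction c using Finsupp.induction_linear with
  | zero => simp
  | add a b ha hb => rw [map_add, Finsupp.add_apply, Finsupp.add_apply, ha, hb]
  | single q d =>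
    classical
    simp only [rmul, lsum_single]
    split_ifs with h'
    · rw [lsingle_apply]
      by_cases hpq : q = p
      · subst hpq; simp
      · have : q.ext x h' ≠ p.ext x h := fun hh => hpq (Pa.ext_inj hh).1
        rw [Finsupp.single_eq_of_ne (Ne.symm this), Finsupp.single_eq_of_ne (Ne.symm hpq)]
    · have : q ≠ p := by
        rintro rfl
        exact h' h
      rw [Finsupp.single_eq_of_ne (Ne.symm this)]
      rfl

lemma rmul_of_not (x : E) (q : Pa G) (hq : ∀ (p : Pa G) (h : G.s x = p.tgt), q ≠ p.ext x h)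
    (c : Pa G →₀ D) : rmul G D x c q = 0 := by
  induction c using Finsupp.induction_linear with
  | zero => simp
  | add a b ha hb => rw [map_add, Finsupp.add_apply, ha, hb, add_zero]
  | single p d =>
    classical
    simp only [rmul, lsum_single]
    split_ifs with h'
    · rw [lsingle_apply, Finsupp.single_eq_of_ne (hq p h')]
    · rfl

lemma vproj_apply (a : V) (c : Pa G →₀ D) (p : Pa G) :
    vproj G D a c p = if p.tgt = a then c p else 0 := by
  classical
  induction c using Finsupp.induction_linear with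
  | zero => simp
  | add a' b ha hb =>
    rw [map_add, Finsupp.add_apply, Finsupp.add_apply, ha, hb]
    split_ifs <;> simp
  | single q d =>
    simp only [vproj, lsum_single]
    by_cases hqp : q = p
    · subst hqp
      split_ifs <;> simp
    · split_ifs
      all_goals simp [Finsupp.single_eq_of_ne (Ne.symm hqp)]

lemma rmul_vproj (x : E) (c : Pa G →₀ D) : rmul G D x (vproj G D (G.s x) c) = rmul G D x c := by
  ext q
  by_cases hq : ∃ (p : Pa G) (h : G.s x = p.tgt), q = p.ext x h
  · obtain ⟨p, h, rfl⟩ := hq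
    rw [rmul_ext, rmul_ext, vproj_apply, if_pos h.symm]
  · push Not at hq
    rw [rmul_of_not x q hq, rmul_of_not x q hq]

lemma vproj_rmul (a : V) (x : E) (c : Pa G →₀ D) :
    vproj G D a (rmul G D x c) = if G.r x = a then rmul G D x c else 0 := by
  ext q
  rw [vproj_apply]
  by_cases hq : ∃ (p : Pa G) (h : G.s x = p.tgt), q = p.ext x h
  · obtain ⟨p, h, rfl⟩ := hq
    rw [Pa.ext_tgt]
    split_ifs <;> rfl
  · push Not at hq
    rw [rmul_of_not x q hq]
    split_ifs
    · rw [rmul_of_not x q hq]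
    · rfl
    · rw [rmul_of_not x q hq]
    · rfl

lemma mem_lenLE {n : ℕ} {c : Pa G →₀ D} : c ∈ lenLE G D n ↔ ∀ p, n < p.len → c p = 0 := by
  rw [lenLE, Finsupp.mem_supported']
  exact ⟨fun h p hp => h p (fun h' : p.len ≤ n => absurd h' (by omega)),
    fun h p hp => h p (by by_contra h'; exact hp (show p.len ≤ n by omega))⟩

lemma mem_lenLT {n : ℕ} {c : Pa G →₀ D} : c ∈ lenLT G D n ↔ ∀ p, n ≤ p.len → c p = 0 := by
  rw [lenLT, Finsupp.mem_supported']
  exact ⟨fun h p hp => h p (fun h' : p.len < n => absurd h' (by omega)),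
    fun h p hp => h p (by by_contra h'; exact hp (show p.len < n by omega))⟩

lemma rmul_lenLE {n : ℕ} {c : Pa G →₀ D} (hc : c ∈ lenLE G D n) (x : E) :
    rmul G D x c ∈ lenLE G D (n + 1) := by
  rw [mem_lenLE] at hc ⊢
  intro q hq
  by_cases h : ∃ (p : Pa G) (h : G.s x = p.tgt), q = p.ext x h
  · obtain ⟨p, h, rfl⟩ := h
    rw [rmul_ext]
    exact hc p (by rw [Pa.ext_len] at hq; omega)
  · push Not at h
    exact rmul_of_not x q h c

lemma vproj_lenLE {n : ℕ} {c : Pa G →₀ D} (hc : c ∈ lenLE G D n) (a : V) :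
    vproj G D a c ∈ lenLE G D n := by
  rw [mem_lenLE] at hc ⊢
  intro q hq
  rw [vproj_apply, hc q hq]
  simp

variable [Fintype E]

/-- The filtration `J`. -/
noncomputable def Jf (G : Graph V E) (n : ℕ) (I : Submodule D (Pa G →₀ D)) :
    ℕ → Submodule D (Pa G →₀ D)
  | 0 => I ⊓ lenLE G D n
  | i + 1 => Jf G n I i ⊔ ⨆ x, (Jf G n I i).map (rmul G D x)

variable {n : ℕ} {I : Submodule D (Pa G →₀ D)}

lemma Jf_mono_succ (i : ℕ) : Jf G n I i ≤ Jf G n I (i + 1) := le_sup_left

lemma Jf_mono {i j : ℕ} (h : i ≤ j) : Jf G n I i ≤ Jf G n I j :=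
  monotone_nat_of_le_succ (f := Jf G n I) (fun i => Jf_mono_succ i) h

lemma rmul_mem_Jf {i : ℕ} {c : Pa G →₀ D} (hc : c ∈ Jf G n I i) (x : E) :
    rmul G D x c ∈ Jf G n I (i + 1) :=
  Submodule.mem_sup_right (Submodule.mem_iSup_of_mem x (Submodule.mem_map_of_mem hc))

lemma Jf_succ_decomp {i : ℕ} {a : Pa G →₀ D} (ha : a ∈ Jf G n I (i + 1)) :
    ∃ b ∈ Jf G n I i, ∃ c : E → Pa G →₀ D, (∀ x, c x ∈ Jf G n I i) ∧
      a = b + ∑ x, rmul G D x (c x) := by
  obtain ⟨b, hb, d, hd, rfl⟩ := Submodule.mem_sup.mp ha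
  refine ⟨b, hb, ?_⟩
  have : d ∈ ⨆ x, (Jf G n I i).map (rmul G D x) := hd
  rw [Submodule.mem_iSup_iff_exists_finsupp] at this
  obtain ⟨g, hg, hgd⟩ := this
  have h1 : ∀ x, ∃ c ∈ Jf G n I i, rmul G D x c = g x := fun x => by
    have := hg x
    rwa [Submodule.mem_map] at this
  choose c hc hcg using h1
  refine ⟨c, hc, ?_⟩
  congr 1
  rw [← hgd, Finsupp.sum_fintype _ _ (fun _ => rfl)]
  exact Finset.sum_congr rfl fun x _ => (hcg x).symm

lemma vproj_mem_Jf (hI : Stable G D I) {i : ℕ} : ∀ {c : Pa G →₀ D}, c ∈ Jf G n I i → ∀ a : V,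
    vproj G D a c ∈ Jf G n I i := by
  induction i with
  | zero =>
    intro c hc a
    exact ⟨hI.2 a c hc.1, vproj_lenLE hc.2 a⟩
  | succ i ih =>
    intro c hc a
    obtain ⟨b, hb, d, hd, rfl⟩ := Jf_succ_decomp hc
    rw [map_add, map_sum]
    refine add_mem (Jf_mono_succ i (ih hb a)) (Submodule.sum_mem _ fun x _ => ?_)
    rw [vproj_rmul]
    split_ifs
    · exact rmul_mem_Jf (hd x) x
    · exact zero_mem _

lemma Jf_le (hI : Stable G D I) (i : ℕ) : Jf G n I i ≤ I ⊓ lenLE G D (n + i) := by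
  induction i with
  | zero => exact le_refl _
  | succ i ih =>
    intro a ha
    obtain ⟨b, hb, c, hc, rfl⟩ := Jf_succ_decomp ha
    have h1 : ∀ m m' : ℕ, m ≤ m' → lenLE G D m ≤ lenLE G D m' := by
      intro m m' hm c hc
      rw [mem_lenLE] at hc ⊢
      exact fun p hp => hc p (by omega)
    refine ⟨add_mem (ih hb).1 (Submodule.sum_mem _ fun x _ => hI.1 x _ (ih (hc x)).1),
      add_mem (h1 _ _ (by omega) (ih hb).2) (Submodule.sum_mem _ fun x _ => ?_)⟩
    exact rmul_lenLE (ih (hc x)).2 x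

lemma sum_rmul_apply (c : E → Pa G →₀ D) (x : E) (p : Pa G) (h : G.s x = p.tgt) :
    (∑ y, rmul G D y (c y)) (p.ext x h) = c x p := by
  classical
  rw [Finsupp.finsetSum_apply, Finset.sum_eq_single x]
  · rw [rmul_ext]
  · intro y _ hy
    refine rmul_of_not y _ ?_ _
    intro q hq hh
    exact hy (Pa.ext_inj hh).2.symm
  · intro h'
    exact absurd (Finset.mem_univ x) h'

/-- normalised decomposition -/
lemma Jf_succ_decomp' (hI : Stable G D I) {i : ℕ} {a : Pa G →₀ D} (ha : a ∈ Jf G n I (i + 1)) :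
    ∃ b ∈ Jf G n I i, ∃ c : E → Pa G →₀ D, (∀ x, c x ∈ Jf G n I i) ∧
      (∀ x (p : Pa G), G.s x ≠ p.tgt → c x p = 0) ∧ a = b + ∑ x, rmul G D x (c x) := by
  obtain ⟨b, hb, c, hc, rfl⟩ := Jf_succ_decomp ha
  refine ⟨b, hb, fun x => vproj G D (G.s x) (c x), fun x => vproj_mem_Jf hI (hc x) _, ?_, ?_⟩
  · intro x p hp
    rw [vproj_apply, if_neg (Ne.symm hp)]
  · congr 1
    exact Finset.sum_congr rfl fun x _ => (rmul_vproj x (c x)).symm

lemma claimA (hn : 1 ≤ n) (hI : Stable G D I) (M : ℕ) : ∀ i ≤ M,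
    Jf G n I M ⊓ lenLE G D (n + i) ≤ Jf G n I i := by
  induction M using Nat.strong_induction_on with
  | _ M ih =>
    intro i hi a ha
    rcases hi.eq_or_lt with rfl | hlt
    · exact ha.1
    obtain ⟨M', rfl⟩ : ∃ M', M = M' + 1 := ⟨M - 1, by omega⟩
    obtain ⟨b, hb, c, hc, hc0, rfl⟩ := Jf_succ_decomp' hI ha.1
    have hb' := (Jf_le hI M' hb).2
    have ha2 := ha.2
    -- `c x` has length `≤ n + M' - 1`
    have h1 : ∀ x, ∀ p : Pa G, n + M' ≤ p.len → c x p = 0 := by
      intro x p hp
      rcases hp.eq_or_lt with hp' | hp'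
      · by_cases h : G.s x = p.tgt
        · have h2 := sum_rmul_apply c x p h
          have h3 : (b + ∑ y, rmul G D y (c y)) (p.ext x h) = 0 := by
            refine mem_lenLE.mp ha2 _ ?_
            rw [Pa.ext_len]
            omega
          have h4 : b (p.ext x h) = 0 := mem_lenLE.mp hb' _ (by rw [Pa.ext_len]; omega)
          rw [Finsupp.add_apply, h4, zero_add, h2] at h3
          exact h3
        · exact hc0 x p h
      · exact mem_lenLE.mp (Jf_le hI M' (hc x)).2 p hp'
    have h2 : ∀ x, rmul G D x (c x) ∈ Jf G n I M' := by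
      intro x
      rcases Nat.eq_zero_or_pos M' with hM0 | hM0
      · subst hM0
        refine ⟨hI.1 x _ (hc x).1, ?_⟩
        have h3 : c x ∈ lenLE G D (n - 1) := mem_lenLE.mpr fun p hp => h1 x p (by omega)
        have h4 := rmul_lenLE h3 x
        rwa [show n - 1 + 1 = n by omega] at h4
      · obtain ⟨M'', rfl⟩ : ∃ M'', M' = M'' + 1 := ⟨M' - 1, by omega⟩
        refine rmul_mem_Jf ?_ x
        refine ih (M'' + 1) (by omega) M'' (by omega) ⟨hc x, ?_⟩
        exact mem_lenLE.mpr fun p hp => h1 x p (by omega)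
    have h3 : b + ∑ x, rmul G D x (c x) ∈ Jf G n I M' :=
      add_mem hb (Submodule.sum_mem _ fun x _ => h2 x)
    exact ih M' (by omega) i (by omega) ⟨h3, ha2⟩

lemma le_Jf (hI : Stable G D I) (X : Set (Pa G →₀ D)) (hX : ∀ c ∈ X, c ∈ lenLE G D n)
    (hXI : ∀ c ∈ X, c ∈ I)
    (hmin : ∀ J : Submodule D (Pa G →₀ D), Stable G D J → (∀ c ∈ X, c ∈ J) → I ≤ J)
    {a : Pa G →₀ D} (ha : a ∈ I) : ∃ M, a ∈ Jf G n I M := by
  have hdir : Directed (· ≤ ·) (Jf G n I) := (monotone_nat_of_le_succ
    (fun i => Jf_mono_succ i)).directed_le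
  have h1 := hmin (⨆ i, Jf G n I i) ⟨?_, ?_⟩ ?_ ha
  · exact (Submodule.mem_iSup_of_directed _ hdir).mp h1
  · intro x c hc
    obtain ⟨M, hM⟩ := (Submodule.mem_iSup_of_directed _ hdir).mp hc
    exact Submodule.mem_iSup_of_mem (M + 1) (rmul_mem_Jf hM x)
  · intro x c hc
    obtain ⟨M, hM⟩ := (Submodule.mem_iSup_of_directed _ hdir).mp hc
    exact Submodule.mem_iSup_of_mem M (vproj_mem_Jf hI hM x)
  · intro c hc
    exact Submodule.mem_iSup_of_mem 0 ⟨hXI c hc, hX c hc⟩

lemma mem_Jf (hn : 1 ≤ n) (hI : Stable G D I) (X : Set (Pa G →₀ D))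
    (hX : ∀ c ∈ X, c ∈ lenLE G D n) (hXI : ∀ c ∈ X, c ∈ I)
    (hmin : ∀ J : Submodule D (Pa G →₀ D), Stable G D J → (∀ c ∈ X, c ∈ J) → I ≤ J)
    {a : Pa G →₀ D} (ha : a ∈ I) (i : ℕ) (hai : a ∈ lenLE G D (n + i)) : a ∈ Jf G n I i := by
  obtain ⟨M, hM⟩ := le_Jf hI X hX hXI hmin ha
  rcases le_total i M with h | h
  · exact claimA hn hI M i h ⟨hM, hai⟩
  · exact Jf_mono h hM

lemma desc_len {q p : Pa G} (h : q.Desc p) : q.len ≤ p.len := by
  obtain ⟨-, l, hl⟩ := h
  have : p.lst.length = l.length + q.lst.length := by rw [hl, List.length_append]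
  change q.lst.length ≤ p.lst.length
  omega

lemma desc_of_ext {q p : Pa G} {x : E} {hx : G.s x = p.tgt} (h : q.Desc (p.ext x hx))
    (hl : q.len ≤ p.len) : q.Desc p := by
  obtain ⟨h1, l, hl'⟩ := h
  cases l with
  | nil =>
    exfalso
    have h2 : (p.ext x hx).lst.length = q.lst.length := by rw [hl']; rfl
    rw [Pa.ext_lst, List.length_cons] at h2
    change q.lst.length ≤ p.lst.length at hl
    omega
  | cons y l =>
    refine ⟨h1, l, ?_⟩
    rw [Pa.ext_lst, List.cons_append, List.cons.injEq] at hl'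
    exact hl'.2

lemma claimB (hn : 1 ≤ n) (hI : Stable G D I) (X : Set (Pa G →₀ D))
    (hX : ∀ c ∈ X, c ∈ lenLE G D n) (hXI : ∀ c ∈ X, c ∈ I)
    (hmin : ∀ J : Submodule D (Pa G →₀ D), Stable G D J → (∀ c ∈ X, c ∈ J) → I ≤ J)
    (q0 : Pa G) (hq : q0.len = n) (hq0 : single q0 (1 : D) ∉ I ⊔ lenLT G D n) (i : ℕ) :
    ∀ g b : Pa G →₀ D, (∀ p, g p ≠ 0 → p.len = n + i ∧ q0.Desc p) → b ∈ lenLT G D (n + i) →
      g + b ∈ I → g = 0 := by
  induction i with
  | zero =>
    intro g b hg hb hgb
    by_contra hne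
    have h1 : ∀ p, p ≠ q0 → g p = 0 := by
      intro p hp
      by_contra h
      obtain ⟨h2, h3, l, hl⟩ := hg p h
      refine hp (Pa.eq_of h3 ?_)
      have h4 : p.lst.length = l.length + q0.lst.length := by rw [hl, List.length_append]
      have h5 : p.lst.length = n + 0 := h2
      have h6 : q0.lst.length = n := hq
      have h7 : l = [] := List.length_eq_zero_iff.mp (by omega)
      rw [hl, h7, List.nil_append]
    have h2 : g = single q0 (g q0) := by
      ext p
      by_cases h : p = q0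
      · subst h; simp
      · rw [h1 p h, Finsupp.single_eq_of_ne h]
    have h3 : g q0 ≠ 0 := by
      intro h
      rw [h, Finsupp.single_zero] at h2
      exact hne h2
    apply hq0
    have h4 : single q0 (1 : D) = (g q0)⁻¹ • g := by
      rw [h2]
      simp [h3]
    rw [h4]
    refine Submodule.smul_mem _ _ ?_
    have h5 : g = (g + b) - b := by abel
    rw [h5]
    exact sub_mem (Submodule.mem_sup_left hgb) (Submodule.mem_sup_right hb)
  | succ i ih =>
    intro g b hg hb hgb
    have h1 : g + b ∈ lenLE G D (n + (i + 1)) := by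
      rw [mem_lenLE]
      intro p hp
      rw [Finsupp.add_apply, mem_lenLT.mp hb p hp.le, add_zero]
      by_contra h
      have := (hg p h).1
      omega
    obtain ⟨b', hb', c, hc, hc0, hgbc⟩ := Jf_succ_decomp' hI
      (mem_Jf hn hI X hX hXI hmin hgb (i + 1) h1)
    -- top components
    have h2 : ∀ x, part (n + i) (c x) = 0 := by
      intro x
      refine ih (part (n + i) (c x)) (c x - part (n + i) (c x)) ?_ ?_ ?_
      · intro p hp
        rw [part_apply] at hp
        split_ifs at hp with hpl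
        · refine ⟨hpl, ?_⟩
          have hs : G.s x = p.tgt := by
            by_contra hs
            exact hp (hc0 x p hs)
          have h3 : (g + b) (p.ext x hs) = c x p := by
            rw [hgbc, Finsupp.add_apply, sum_rmul_apply]
            have : b' (p.ext x hs) = 0 := by
              refine mem_lenLE.mp (Jf_le hI i hb').2 _ ?_
              rw [Pa.ext_len]
              omega
            rw [this, zero_add]
          have h4 : b (p.ext x hs) = 0 := mem_lenLT.mp hb _ (by rw [Pa.ext_len]; omega)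
          rw [Finsupp.add_apply, h4, add_zero] at h3
          have h5 := (hg (p.ext x hs) (by rw [h3]; exact hp)).2
          exact desc_of_ext h5 (by omega)
        · exact absurd rfl hp
      · rw [mem_lenLT]
        intro p hp
        rw [Finsupp.sub_apply, part_apply]
        split_ifs with hpl
        · rw [sub_self]
        · rw [sub_zero]
          exact mem_lenLE.mp (Jf_le hI i (hc x)).2 p (by omega)
      · rw [add_sub_cancel]
        exact (Jf_le hI i (hc x)).1
    ext q
    rw [Finsupp.zero_apply]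
    by_contra hgq
    obtain ⟨h3, h4⟩ := hg q hgq
    obtain ⟨p, x, hx, rfl⟩ := q.exists_ext (by omega)
    have h5 : (g + b) (p.ext x hx) = c x p := by
      rw [hgbc, Finsupp.add_apply, sum_rmul_apply]
      have : b' (p.ext x hx) = 0 := by
        refine mem_lenLE.mp (Jf_le hI i hb').2 _ ?_
        omega
      rw [this, zero_add]
    have h6 : b (p.ext x hx) = 0 := mem_lenLT.mp hb _ (by omega)
    rw [Finsupp.add_apply, h6, add_zero] at h5
    have h7 : part (n + i) (c x) p = 0 := by rw [h2 x]; rfl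
    rw [part_apply, if_pos (by rw [Pa.ext_len] at h3; omega)] at h7
    exact hgq (h5.trans h7)

end KL

theorem key {V E : Type} [Fintype E] [DecidableEq V] (G : Graph V E) (D : Type v)
    [DivisionRing D] (n : ℕ) (hn : 1 ≤ n)
    (I : Submodule D (Pa G →₀ D)) (hI : Stable G D I)
    (X : Set (Pa G →₀ D)) (hX : ∀ c ∈ X, c ∈ lenLE G D n) (hXI : ∀ c ∈ X, c ∈ I)
    (hmin : ∀ J : Submodule D (Pa G →₀ D), Stable G D J → (∀ c ∈ X, c ∈ J) → I ≤ J)
    (q0 : Pa G) (hq : q0.len = n) (hq0 : single q0 (1 : D) ∉ I ⊔ lenLT G D n)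
    (c : Pa G →₀ D) (hc : c ∈ I) (hcs : ∀ p ∈ c.support, q0.Desc p) : c = 0 := by
  classical
  by_contra hne
  have hsup : c.support.Nonempty := Finsupp.support_nonempty_iff.mpr hne
  obtain ⟨p0, hp0, hmax⟩ := Finset.exists_max_image c.support Pa.len hsup
  have h1 : n ≤ p0.len := by
    have := desc_len (hcs p0 hp0)
    omega
  have h2 := claimB hn hI X hX hXI hmin q0 hq hq0 (p0.len - n) (part p0.len c)
    (c - part p0.len c) ?_ ?_ ?_
  · have h3 : part p0.len c p0 = 0 := by rw [h2]; rfl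
    rw [part_apply, if_pos rfl] at h3
    exact (Finsupp.mem_support_iff.mp hp0) h3
  · intro p hp
    rw [part_apply] at hp
    split_ifs at hp with hpl
    · exact ⟨by omega, hcs p (Finsupp.mem_support_iff.mpr hp)⟩
    · exact absurd rfl hp
  · rw [mem_lenLT]
    intro p hp
    rw [Finsupp.sub_apply, part_apply]
    split_ifs with hpl
    · rw [sub_self]
    · rw [sub_zero]
      by_contra h
      have := hmax p (Finsupp.mem_support_iff.mpr h)
      omega
  · rw [add_sub_cancel]
    exact hc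

end Pool.Agent.Helper92.LV
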