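import Mathlib
import Pool.Agent.Helper92.LV.M1

set_option autoImplicit false

/-!
# The bimodule `D ⊗ L` and its sub-bimodule `Iδ`
-/

namespace Pool.Agent.Helper92.LV

universe u v w

open Finsupp TensorProduct

section Dl

lemma dl_append {A : Type} {D : Type v} [Monoid D] (δ : A → D) (l m : List A) :
    dl δ (l ++ m) = dl δ m * dl δ l := by
  induction l with
  | nil => simp [dl]
  | cons a l ih =>
    change dl δ (l ++ m) * δ a = dl δ m * (dl δ l * δ a)
    rw [ih, mul_assoc]

end Dl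

section Tens

variable {k : Type u} [Field k] {L : Type v} [Ring L] [Algebra k L]
  (D : Type w) [DivisionRing D] [Algebra k D]

/-- right multiplication by `l` on `D ⊗ L` -/
noncomputable def rm (l : L) : D ⊗[k] L →ₗ[D] D ⊗[k] L :=
  TensorProduct.AlgebraTensorModule.map LinearMap.id (LinearMap.mulRight k l)

lemma rm_tmul (l : L) (d : D) (a : L) : rm (k := k) D l (d ⊗ₜ a) = d ⊗ₜ (a * l) := rfl

lemma rm_rm (l m : L) (z : D ⊗[k] L) : rm (k := k) D l (rm D m z) = rm D (m * l) z := by
  induction z using TensorProduct.induction_on with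
  | zero => simp
  | tmul d a => simp [rm_tmul, mul_assoc]
  | add x y hx hy => simp [hx, hy]

lemma rm_add (l m : L) (z : D ⊗[k] L) :
    rm (k := k) D (l + m) z = rm D l z + rm D m z := by
  induction z using TensorProduct.induction_on with
  | zero => simp
  | tmul d a => simp [rm_tmul, mul_add, TensorProduct.tmul_add]
  | add x y hx hy => simp only [map_add, hx, hy]; abel

lemma rm_zero (z : D ⊗[k] L) : rm (k := k) D (0 : L) z = 0 := by
  induction z using TensorProduct.induction_on with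
  | zero => simp
  | tmul d a => simp [rm_tmul]
  | add x y hx hy => simp [hx, hy]

lemma rm_one (z : D ⊗[k] L) : rm (k := k) D (1 : L) z = z := by
  induction z using TensorProduct.induction_on with
  | zero => simp
  | tmul d a => simp [rm_tmul]
  | add x y hx hy => simp [hx, hy]

lemma rm_sum {ι : Type*} (s : Finset ι) (l : ι → L) (z : D ⊗[k] L) :
    rm (k := k) D (∑ i ∈ s, l i) z = ∑ i ∈ s, rm D (l i) z := by
  classical
  induction s using Finset.induction_on with
  | empty => simp [rm_zero]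
  | insert a s ha ih => rw [Finset.sum_insert ha, Finset.sum_insert ha, rm_add, ih]

lemma smul_tmul_D (d d' : D) (a : L) : d • (d' ⊗ₜ[k] a) = (d * d') ⊗ₜ a := rfl

lemma tmul_smul_D (c : k) (d : D) (a : L) : d ⊗ₜ[k] (c • a) = (algebraMap k D c) • (d ⊗ₜ[k] a) := by
  rw [smul_tmul_D, ← TensorProduct.smul_tmul, Algebra.smul_def]

end Tens

section Phi

variable {k : Type u} [Field k] {V E : Type} [Fintype V] [Fintype E] [DecidableEq V]
    [DecidableEq E] {G : Graph V E} {L : Type v} [Ring L] [Algebra k L] (f : Fam k G L)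
    (D : Type w) [DivisionRing D] [Algebra k D]

/-- The map from the free `D`-module on the paths to `D ⊗ L`. -/
noncomputable def Φ : (Pa G →₀ D) →ₗ[D] D ⊗[k] L :=
  Finsupp.linearCombination D (fun p => (1 : D) ⊗ₜ[k] f.pe p)

lemma Φ_single (p : Pa G) (d : D) : Φ f D (single p d) = d ⊗ₜ f.pe p := by
  simp [Φ, smul_tmul_D]

lemma Φ_rmul (x : E) (c : Pa G →₀ D) : Φ f D (rmul G D x c) = rm D (f.e x) (Φ f D c) := by
  induction c using Finsupp.induction_linear with
  | zero => simp
  | add a b ha hb => simp only [map_add, ha, hb]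
  | single p d =>
    rw [Φ_single, rm_tmul, f.pe_mul_e]
    simp only [rmul, lsum_single]
    split_ifs with h
    · simp [Φ_single]
    · simp

lemma Φ_vproj (a : V) (c : Pa G →₀ D) : Φ f D (vproj G D a c) = rm D (f.v a) (Φ f D c) := by
  induction c using Finsupp.induction_linear with
  | zero => simp
  | add a b ha hb => simp only [map_add, ha, hb]
  | single p d =>
    rw [Φ_single, rm_tmul, f.pe_mul_v]
    simp only [vproj, lsum_single]
    split_ifs with h
    · simp [Φ_single]
    · simp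

/-- from `k`-coefficients to `D`-coefficients -/
noncomputable def cD (c : Pa G →₀ k) : Pa G →₀ D := c.mapRange (algebraMap k D) (map_zero _)

lemma Φ_cD (c : Pa G →₀ k) :
    Φ f D (cD D c) = 1 ⊗ₜ (Finsupp.linearCombination k f.pe c) := by
  induction c using Finsupp.induction_linear with
  | zero => simp [cD]
  | add a b ha hb =>
    have : cD D (a + b) = cD D a + cD D b := by
      simp [cD, Finsupp.mapRange_add]
    rw [this, map_add, ha, hb, map_add, TensorProduct.tmul_add]
  | single p d =>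
    rw [cD, mapRange_single, Φ_single, linearCombination_single, tmul_smul_D, smul_tmul_D, mul_one]

theorem Φ_injective (hf : f.Indep) : Function.Injective (Φ f D) := by
  have h1 : Function.Injective (Finsupp.linearCombination k f.pe) := hf
  obtain ⟨g, hg⟩ := LinearMap.exists_leftInverse_of_injective _ (LinearMap.ker_eq_bot.mpr h1)
  -- coordinates
  let co (p : Pa G) : D ⊗[k] L →ₗ[D] D :=
    (TensorProduct.AlgebraTensorModule.rid k D D).toLinearMap ∘ₗ
      TensorProduct.AlgebraTensorModule.map LinearMap.id ((Finsupp.lapply p) ∘ₗ g)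
  have h2 : ∀ p c, co p (Φ f D c) = c p := by
    intro p c
    induction c using Finsupp.induction_linear with
    | zero => simp
    | add a b ha hb => simp only [map_add, ha, hb, Finsupp.add_apply]
    | single q d =>
      rw [Φ_single]
      have h3 : g (f.pe q) = single q 1 := by
        have := LinearMap.congr_fun hg (single q 1)
        simpa using this
      simp only [co, LinearMap.comp_apply, LinearEquiv.coe_coe,
        TensorProduct.AlgebraTensorModule.map_tmul, LinearMap.id_apply, h3, Finsupp.lapply_apply,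
        TensorProduct.AlgebraTensorModule.rid_tmul]
      by_cases h : q = p
      · subst h; simp
      · simp [h]
  intro c c' h
  ext p
  rw [← h2 p c, ← h2 p c', h]

variable {D} (δ : E → D)

/-- The sub-bimodule generated by `1 ⊗ e - δ_e ⊗ r(e)`. -/
noncomputable def Iδ : Submodule D (D ⊗[k] L) :=
  Submodule.span D {z | ∃ (x : E) (l : L),
    z = (1 : D) ⊗ₜ (f.e x * l) - δ x ⊗ₜ (f.v (G.r x) * l)}

lemma gen_mem (x : E) (l : L) :
    (1 : D) ⊗ₜ (f.e x * l) - δ x ⊗ₜ (f.v (G.r x) * l) ∈ Iδ f δ :=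
  Submodule.subset_span ⟨x, l, rfl⟩

lemma rm_mem (l : L) {z : D ⊗[k] L} (hz : z ∈ Iδ f δ) : rm D l z ∈ Iδ f δ := by
  induction hz using Submodule.span_induction with
  | mem z hz =>
    obtain ⟨x, m, rfl⟩ := hz
    rw [map_sub, rm_tmul, rm_tmul, mul_assoc, mul_assoc]
    exact gen_mem f δ x (m * l)
  | zero => rw [map_zero]; exact zero_mem _
  | add x y _ _ hx hy => rw [map_add]; exact add_mem hx hy
  | smul c x _ hx => rw [map_smul]; exact Submodule.smul_mem _ _ hx

/-- `1 ⊗ p l ≡ δ_p ⊗ r(p) l`. -/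
lemma pe_congr (p : Pa G) (l : L) :
    (1 : D) ⊗ₜ (f.pe p * l) - dl δ p.lst ⊗ₜ (f.v p.tgt * l) ∈ Iδ f δ := by
  obtain ⟨⟨a, m⟩, hp⟩ := p
  change (1 : D) ⊗ₜ (f.pl a m * l) - dl δ m ⊗ₜ (f.v (rng G a m) * l) ∈ Iδ f δ
  induction m generalizing l with
  | nil =>
    change (1 : D) ⊗ₜ (f.v a * l) - (1 : D) ⊗ₜ (f.v a * l) ∈ Iδ f δ
    rw [sub_self]
    exact zero_mem _
  | cons x m ih =>
    have h1 := ih (f.e x * l) hp.1
    have h2 := Submodule.smul_mem _ (dl δ m) (gen_mem f δ x l)
    have h3 : f.v (rng G a m) * (f.e x * l) = f.e x * l := by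
      rw [← hp.2, ← mul_assoc, f.se]
    rw [h3] at h1
    have h4 := add_mem h1 h2
    rw [smul_sub, smul_tmul_D, smul_tmul_D, mul_one] at h4
    have h5 : f.pl a (x :: m) = f.pl a m * f.e x := rfl
    have h6 : rng G a (x :: m) = G.r x := rfl
    have h7 : dl δ (x :: m) = dl δ m * δ x := rfl
    rw [h5, h6, h7, mul_assoc]
    convert h4 using 1
    abel

/-- Evaluation of combinations of paths in `D`. -/
noncomputable def ev : (Pa G →₀ D) →ₗ[D] D :=
  Finsupp.linearCombination D (fun p => dl δ p.lst)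

lemma ev_single (p : Pa G) (d : D) : ev (G := G) δ (single p d) = d * dl δ p.lst := by
  simp [ev]

/-- the generators evaluate to zero -/
lemma gen_ev (x : E) {y : L} (hy : y ∈ f.O) : ∃ X : Pa G →₀ D,
    Φ f D X = (1 : D) ⊗ₜ (f.e x * y) - δ x ⊗ₜ (f.v (G.r x) * y) ∧ ev δ X = 0 := by
  induction hy using Submodule.span_induction with
  | mem y hy =>
    obtain ⟨p, rfl⟩ := hy
    by_cases h : (Fam.edg G x).tgt = p.src
    · refine ⟨single ((Fam.edg G x).comp p h) 1 - single p (δ x), ?_, ?_⟩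
      · rw [map_sub, Φ_single, Φ_single, f.e_mul_pe, dif_pos h, f.v_mul_pe, if_pos]
        exact h
      · rw [map_sub, ev_single, ev_single]
        have : ((Fam.edg G x).comp p h).lst = p.lst ++ [x] := rfl
        rw [this, dl_append]
        simp [dl]
    · refine ⟨0, ?_, by simp⟩
      rw [f.e_mul_pe, dif_neg h, f.v_mul_pe, if_neg]
      · simp
      · exact h
  | zero => exact ⟨0, by simp, by simp⟩
  | add x' y' _ _ hx hy =>
    obtain ⟨X, h1, h2⟩ := hx
    obtain ⟨Y, h3, h4⟩ := hy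
    refine ⟨X + Y, ?_, by rw [map_add, h2, h4, add_zero]⟩
    rw [map_add, h1, h3, mul_add, mul_add, TensorProduct.tmul_add, TensorProduct.tmul_add]
    abel
  | smul c x' _ hx =>
    obtain ⟨X, h1, h2⟩ := hx
    refine ⟨(algebraMap k D c) • X, ?_, by rw [map_smul, h2, smul_zero]⟩
    rw [map_smul, h1, mul_smul_comm, mul_smul_comm, tmul_smul_D, tmul_smul_D, smul_sub]

/-- Elements of `Iδ` evaluate to zero after right multiplication by long paths. -/
lemma mem_Iδ_ev (hf : f.Gens) {z : D ⊗[k] L} (hz : z ∈ Iδ f δ) :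
    ∃ j : ℕ, ∀ q : Pa G, j ≤ q.len → ∃ X : Pa G →₀ D, Φ f D X = rm D (f.pe q) z ∧ ev δ X = 0 := by
  induction hz using Submodule.span_induction with
  | mem z hz =>
    obtain ⟨x, l, rfl⟩ := hz
    obtain ⟨j, hj⟩ := f.long_mul hf l 0
    refine ⟨j, fun q hq => ?_⟩
    obtain ⟨X, h1, h2⟩ := gen_ev f δ x (f.OGe_le 0 (hj q hq))
    refine ⟨X, ?_, h2⟩
    rw [h1, map_sub, rm_tmul, rm_tmul, mul_assoc, mul_assoc]
  | zero => exact ⟨0, fun q _ => ⟨0, by simp, by simp⟩⟩
  | add x y _ _ hx hy =>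
    obtain ⟨i, hi⟩ := hx
    obtain ⟨j, hj⟩ := hy
    refine ⟨max i j, fun q hq => ?_⟩
    obtain ⟨X, h1, h2⟩ := hi q (le_trans (le_max_left _ _) hq)
    obtain ⟨Y, h3, h4⟩ := hj q (le_trans (le_max_right _ _) hq)
    exact ⟨X + Y, by rw [map_add, map_add, h1, h3], by rw [map_add, h2, h4, add_zero]⟩
  | smul c x _ hx =>
    obtain ⟨i, hi⟩ := hx
    refine ⟨i, fun q hq => ?_⟩
    obtain ⟨X, h1, h2⟩ := hi q hq
    exact ⟨c • X, by rw [map_smul, map_smul, h1], by rw [map_smul, h2, smul_zero]⟩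

variable (hG : ∀ a : V, ∃ x : E, G.s x = a)

include hG in
/-- `d ⊗ v a ∈ Iδ` implies `d = 0`. -/
lemma tmul_v_mem (hf : f.Gens) (hi : f.Indep) (hδ : LinearIndependent k (dl δ)) (d : D) (a : V)
    (h : d ⊗ₜ f.v a ∈ Iδ f δ) : d = 0 := by
  obtain ⟨j, hj⟩ := mem_Iδ_ev f δ hf h
  obtain ⟨q, h1, h2⟩ := Pa.exists_path hG a j
  obtain ⟨X, h3, h4⟩ := hj q h2.ge
  rw [rm_tmul, f.v_mul_pe, if_pos h1.symm, ← Φ_single] at h3
  rw [Φ_injective f D hi h3, ev_single] at h4
  exact (mul_eq_zero.mp h4).resolve_right (hδ.ne_zero _)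

/-- elements of `O v a` are congruent to multiples of `v a` -/
lemma O_congr {y : L} (hy : y ∈ f.O) (a : V) :
    ∃ d : D, (1 : D) ⊗ₜ (y * f.v a) - d ⊗ₜ f.v a ∈ Iδ f δ := by
  induction hy using Submodule.span_induction with
  | mem y hy =>
    obtain ⟨p, rfl⟩ := hy
    by_cases h : p.tgt = a
    · subst h
      refine ⟨dl δ p.lst, ?_⟩
      have := pe_congr f δ p (f.v p.tgt)
      rwa [f.vv, if_pos rfl] at this
    · refine ⟨0, ?_⟩
      rw [f.pe_mul_v, if_neg h]
      simp
  | zero => exact ⟨0, by simp⟩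
  | add x' y' _ _ hx hy =>
    obtain ⟨d, h1⟩ := hx
    obtain ⟨d', h2⟩ := hy
    refine ⟨d + d', ?_⟩
    rw [add_mul, TensorProduct.tmul_add, TensorProduct.add_tmul]
    convert add_mem h1 h2 using 1
    abel
  | smul c x' _ hx =>
    obtain ⟨d, h1⟩ := hx
    refine ⟨algebraMap k D c * d, ?_⟩
    have := Submodule.smul_mem _ (algebraMap k D c) h1
    rwa [smul_sub, ← tmul_smul_D, smul_tmul_D, ← smul_mul_assoc] at this

/-- right multiplication by a long path `p` makes everything congruent to a multiple of `r(p)`. -/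
lemma long_congr (hf : f.Gens) (z : D ⊗[k] L) : ∃ j : ℕ, ∀ p : Pa G, j ≤ p.len →
    ∃ d : D, rm D (f.pe p) z - d ⊗ₜ f.v p.tgt ∈ Iδ f δ := by
  induction z using TensorProduct.induction_on with
  | zero => exact ⟨0, fun p _ => ⟨0, by simp⟩⟩
  | tmul d a =>
    obtain ⟨j, hj⟩ := f.long_mul hf a 0
    refine ⟨j, fun p hp => ?_⟩
    obtain ⟨d', h⟩ := O_congr f δ (f.OGe_le 0 (hj p hp)) p.tgt
    refine ⟨d * d', ?_⟩
    have := Submodule.smul_mem _ d h
    rw [smul_sub, smul_tmul_D, smul_tmul_D, mul_one, mul_assoc, f.pe_mul_tgt] at this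
    rw [rm_tmul]
    exact this
  | add x y hx hy =>
    obtain ⟨i, hi⟩ := hx
    obtain ⟨j, hj⟩ := hy
    refine ⟨max i j, fun p hp => ?_⟩
    obtain ⟨d, h1⟩ := hi p (le_trans (le_max_left _ _) hp)
    obtain ⟨d', h2⟩ := hj p (le_trans (le_max_right _ _) hp)
    refine ⟨d + d', ?_⟩
    rw [map_add, TensorProduct.add_tmul]
    convert add_mem h1 h2 using 1
    abel

include hG in
/-- descending -/
lemma mem_of_paths (j : ℕ) : ∀ (z : D ⊗[k] L),
    (∀ p : Pa G, p.len = j → rm D (f.pe p) z ∈ Iδ f δ) → z ∈ Iδ f δ := by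
  induction j with
  | zero =>
    intro z hz
    have h1 : z = ∑ a, rm D (f.v a) z := by
      rw [← rm_sum, f.one, rm_one]
    rw [h1]
    exact Submodule.sum_mem _ fun a _ => hz (Pa.triv G a) rfl
  | succ j ih =>
    intro z hz
    refine ih z fun p hp => ?_
    have h1 : rm D (f.pe p) z = ∑ x, rm D (f.g x) (rm D (f.pe p * f.e x) z) := by
      rw [← rm_one D (rm D (f.pe p) z), ← f.sum_eg hG, rm_sum]
      refine Finset.sum_congr rfl fun x _ => ?_
      rw [rm_rm, rm_rm, mul_assoc]
    rw [h1]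
    refine Submodule.sum_mem _ fun x _ => rm_mem f δ _ ?_
    rw [f.pe_mul_e]
    split_ifs with h
    · exact hz _ (by simp [hp])
    · rw [rm_zero]
      exact zero_mem _

include hG in
/-- Simplicity of `D ⊗ L / Iδ`. -/
theorem simple (hf : f.Gens) (hδ : LinearIndependent k (dl δ)) (hc : G.StronglyConnected)
    (z : D ⊗[k] L) (hz : z ∉ Iδ f δ) (w : D ⊗[k] L) :
    w ∈ Submodule.span D (Set.range fun l => rm D l z) ⊔ Iδ f δ := by
  set Y := Submodule.span D (Set.range fun l => rm D l z) ⊔ Iδ f δ with hY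
  have hYrm : ∀ l : L, ∀ y ∈ Y, rm D l y ∈ Y := by
    intro l y hy
    obtain ⟨y1, h1, y2, h2, rfl⟩ := Submodule.mem_sup.mp hy
    rw [map_add]
    refine add_mem ?_ (Submodule.mem_sup_right (rm_mem f δ l h2))
    refine Submodule.mem_sup_left ?_
    clear hy
    induction h1 using Submodule.span_induction with
    | mem x hx =>
      obtain ⟨m, rfl⟩ := hx
      refine Submodule.subset_span ⟨m * l, ?_⟩
      rw [rm_rm]
    | zero => rw [map_zero]; exact zero_mem _
    | add x y _ _ hx hy => rw [map_add]; exact add_mem hx hy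
    | smul c x _ hx => rw [map_smul]; exact Submodule.smul_mem _ _ hx
  have hle : Iδ f δ ≤ Y := le_sup_right
  obtain ⟨j, hj⟩ := long_congr f δ hf z
  have h1 : ∃ p : Pa G, p.len = j ∧ rm D (f.pe p) z ∉ Iδ f δ := by
    by_contra h
    push Not at h
    exact hz (mem_of_paths f δ hG j z h)
  obtain ⟨p, hp, hp'⟩ := h1
  obtain ⟨d, hd⟩ := hj p hp.ge
  have hd0 : d ≠ 0 := by
    rintro rfl
    rw [TensorProduct.zero_tmul, sub_zero] at hd
    exact hp' hd
  have h2 : (1 : D) ⊗ₜ[k] f.v p.tgt ∈ Y := by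
    have h3 : rm D (f.pe p) z ∈ Y :=
      Submodule.mem_sup_left (Submodule.subset_span ⟨f.pe p, rfl⟩)
    have h4 : d ⊗ₜ[k] f.v p.tgt ∈ Y := by
      have := sub_mem h3 (hle hd)
      rwa [sub_sub_cancel] at this
    have h5 := Submodule.smul_mem _ d⁻¹ h4
    rwa [smul_tmul_D, inv_mul_cancel₀ hd0] at h5
  have h3 : ∀ b, (1 : D) ⊗ₜ[k] f.v b ∈ Y := by
    intro b
    have := hc p.tgt b
    induction this with
    | refl => exact h2
    | snoc x hr ih =>
      have h4 := hYrm (f.e x) _ ih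
      rw [rm_tmul, f.se] at h4
      have h5 := hle (gen_mem f δ x (f.v (G.r x)))
      rw [f.er, f.vv, if_pos rfl] at h5
      have h6 := sub_mem h4 h5
      rw [sub_sub_cancel] at h6
      have hx : δ x ≠ 0 := by
        have := hδ.ne_zero [x]
        simpa [dl] using this
      have h7 := Submodule.smul_mem _ (δ x)⁻¹ h6
      rwa [smul_tmul_D, inv_mul_cancel₀ hx] at h7
  have h4 : (1 : D) ⊗ₜ[k] (1 : L) ∈ Y := by
    rw [← f.one, TensorProduct.tmul_sum]
    exact Submodule.sum_mem _ fun a _ => h3 a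
  induction w using TensorProduct.induction_on with
  | zero => exact zero_mem _
  | tmul d a =>
    have h5 := Submodule.smul_mem _ d (hYrm a _ h4)
    rwa [rm_tmul, smul_tmul_D, mul_one, one_mul] at h5
  | add x y hx hy => exact add_mem hx hy

end Phi

end Pool.Agent.Helper92.LV
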