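import Mathlib
import Pool.Agent.Helper92.LV.M2

set_option autoImplicit false

/-!
# Detection: `1 ⊗ l ≡ d ⊗ v a` implies `l ∈ O`
-/

namespace Pool.Agent.Helper92.LV

universe u v w

open Finsupp TensorProduct

section Val

variable {k : Type u} [Field k] {V E : Type} [Fintype V] [Fintype E] [DecidableEq V]
    [DecidableEq E] {G : Graph V E} {L : Type v} [Ring L] [Algebra k L] (f : Fam k G L)
    {D : Type w} [DivisionRing D] [Algebra k D] (δ : E → D)

/-- evaluation with `k`-coefficients -/
noncomputable def evk (k : Type u) [Field k] {V E : Type} {G : Graph V E} {D : Type w}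
    [DivisionRing D] [Algebra k D] (δ : E → D) : (Pa G →₀ k) →ₗ[k] D :=
  Finsupp.linearCombination k (fun p : Pa G => dl δ p.lst)

lemma ev_cD (c : Pa G →₀ k) : ev δ (cD D c) = evk k δ c := by
  induction c using Finsupp.induction_linear with
  | zero => simp [cD]
  | add a b ha hb =>
    have : cD D (a + b) = cD D a + cD D b := by
      simp [cD, Finsupp.mapRange_add]
    rw [this, map_add, ha, hb, map_add]
  | single p d =>
    rw [cD, mapRange_single, ev_single, evk, linearCombination_single, Algebra.smul_def]

/-- `y` is a combination of paths ending at `a`, of value `d` in `D`. -/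
def Val (a : V) (y : L) (d : D) : Prop :=
  ∃ c : Pa G →₀ k, (∀ p ∈ c.support, p.tgt = a) ∧ linearCombination k f.pe c = y ∧ evk k δ c = d

/-- forget the start vertex -/
noncomputable def toL (c : Pa G →₀ k) : List E →₀ k := c.mapDomain (fun p => p.lst)

lemma evk_toL (c : Pa G →₀ k) : linearCombination k (dl δ) (toL c) = evk k δ c := by
  rw [toL, linearCombination_mapDomain]
  rfl

lemma start_unique {a b : V} {l : List E} (ha : ok G a l) (hb : ok G b l) (hl : l ≠ []) :
    a = b := by
  induction l with
  | nil => exact absurd rfl hl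
  | cons x l ih =>
    by_cases h : l = []
    · subst h
      have h1 := ha.2
      have h2 := hb.2
      simp only [rng] at h1 h2
      rw [← h1, ← h2]
    · exact ih ha.1 hb.1 h

lemma lst_injOn (a : V) : Set.InjOn (fun p : Pa G => p.lst) {p | p.tgt = a} := by
  intro p hp q hq h
  change p.lst = q.lst at h
  refine Pa.eq_of ?_ h
  by_cases hl : p.lst = []
  · have h1 : p.tgt = p.src := by
      change rng G p.src p.lst = p.src
      rw [hl]; rfl
    have h2 : q.tgt = q.src := by
      change rng G q.src q.lst = q.src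
      rw [← h, hl]; rfl
    rw [← h1, ← h2, hp, hq]
  · have h1 : ok G p.src p.lst := p.2
    have h2 : ok G q.src q.lst := q.2
    rw [← h] at h2
    exact start_unique h1 h2 hl

lemma toL_injOn (a : V) {c c' : Pa G →₀ k} (hc : ∀ p ∈ c.support, p.tgt = a)
    (hc' : ∀ p ∈ c'.support, p.tgt = a) (h : toL c = toL c') : c = c' :=
  Finsupp.mapDomain_injOn {p : Pa G | p.tgt = a} (lst_injOn a) (fun p hp => hc p hp)
    (fun p hp => hc' p hp) h

variable {f δ}

lemma Val.unique (hδ : LinearIndependent k (dl δ)) {a : V} {y y' : L} {d : D}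
    (h : Val f δ a y d) (h' : Val f δ a y' d) : y = y' := by
  obtain ⟨c, h1, h2, h3⟩ := h
  obtain ⟨c', h1', h2', h3'⟩ := h'
  have h4 : toL c = toL c' := by
    apply hδ
    rw [evk_toL, evk_toL, h3, h3']
  rw [← h2, ← h2', toL_injOn a h1 h1' h4]

lemma Val.mem_W {a : V} {y : L} {d : D} (h : Val f δ a y d) : d ∈ W k δ := by
  obtain ⟨c, h1, h2, h3⟩ := h
  rw [← h3, evk, linearCombination_apply, Finsupp.sum]
  exact Submodule.sum_mem _ fun p _ =>
    Submodule.smul_mem _ _ (Submodule.subset_span ⟨p.lst, rfl⟩)

lemma Val.mem_O {a : V} {y : L} {d : D} (h : Val f δ a y d) : y ∈ f.O := by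
  obtain ⟨c, h1, h2, h3⟩ := h
  rw [← h2, linearCombination_apply, Finsupp.sum]
  exact Submodule.sum_mem _ fun p _ =>
    Submodule.smul_mem _ _ (f.pe_mem_O p)

lemma Val.add {a : V} {y y' : L} {d d' : D} (h : Val f δ a y d) (h' : Val f δ a y' d') :
    Val f δ a (y + y') (d + d') := by
  classical
  obtain ⟨c, h1, h2, h3⟩ := h
  obtain ⟨c', h1', h2', h3'⟩ := h'
  refine ⟨c + c', fun p hp => ?_, by rw [map_add, h2, h2'], by rw [map_add, h3, h3']⟩
  rcases Finset.mem_union.mp (Finsupp.support_add hp) with h | h
  · exact h1 p h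
  · exact h1' p h

lemma Val.smul {a : V} {y : L} {d : D} (h : Val f δ a y d) (r : k) :
    Val f δ a (r • y) (r • d) := by
  obtain ⟨c, h1, h2, h3⟩ := h
  exact ⟨r • c, fun p hp => h1 p (Finsupp.support_smul hp), by rw [map_smul, h2],
    by rw [map_smul, h3]⟩

lemma Val.zero (a : V) : Val f δ a (0 : L) (0 : D) :=
  ⟨0, by simp, by simp, by simp⟩

lemma Val.path (p : Pa G) : Val f δ p.tgt (f.pe p) (dl δ p.lst) := by
  classical
  refine ⟨single p 1, fun q hq => ?_, by simp, by simp [evk]⟩
  have : q = p := by
    have := Finsupp.support_single_subset hq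
    simpa using this
  rw [this]

lemma Val.mul_e {a : V} {y : L} {d : D} (h : Val f δ a y d) (x : E) (hx : G.s x = a) :
    Val f δ (G.r x) (y * f.e x) (d * δ x) := by
  obtain ⟨c, h1, h2, h3⟩ := h
  have key : ∀ c : Pa G →₀ k, (∀ p ∈ c.support, p.tgt = a) →
      Val f δ (G.r x) (linearCombination k f.pe c * f.e x) (evk k δ c * δ x) := by
    intro c hc
    induction c using Finsupp.induction with
    | zero => simpa using Val.zero (G.r x)
    | single_add p b c hp hb ih =>
      have hpa : p.tgt = a := by
        apply hc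
        rw [Finsupp.mem_support_iff, Finsupp.add_apply, Finsupp.notMem_support_iff.mp hp]
        simpa using hb
      have hc' : ∀ q ∈ c.support, q.tgt = a := by
        intro q hq
        apply hc
        have hqp : q ≠ p := by
          rintro rfl
          exact hp hq
        rw [Finsupp.mem_support_iff, Finsupp.add_apply, Finsupp.single_eq_of_ne hqp, zero_add]
        exact Finsupp.mem_support_iff.mp hq
      rw [map_add, map_add, add_mul, add_mul]
      refine Val.add ?_ (ih hc')
      have h4 := (Val.path (f := f) (δ := δ) (p.ext x (by rw [hx, hpa]))).smul b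
      rw [evk, linearCombination_single, linearCombination_single, smul_mul_assoc, smul_mul_assoc]
      exact h4
  have := key c h1
  rwa [h2, h3] at this

/-- a value in `W`, which after multiplication by an edge comes from paths, comes from paths -/
lemma Val.of_mul (hδ : LinearIndependent k (dl δ)) {a : V} {x : E} (hx : G.s x = a) {y : L} {d : D}
    (hd : d ∈ W k δ) (h : Val f δ (G.r x) y (d * δ x)) : ∃ o : L, Val f δ a o d := by
  classical
  obtain ⟨c, h1, h2, h3⟩ := h
  -- `d = ∑ b_w dl w`
  have hd' : d ∈ LinearMap.range (linearCombination k (dl δ)) := by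
    rw [Finsupp.range_linearCombination]
    exact hd
  obtain ⟨b, hb⟩ := hd'
  -- `d * δ x = ∑ b_w dl (x :: w)`
  have h4 : linearCombination k (dl δ) (b.mapDomain (fun w => x :: w)) = d * δ x := by
    rw [linearCombination_mapDomain, ← hb]
    clear hb
    induction b using Finsupp.induction_linear with
    | zero => simp
    | add b b' h h' => rw [map_add, map_add, h, h', add_mul]
    | single w r =>
      simp only [linearCombination_single, Function.comp_apply, smul_mul_assoc]
      rfl
  have h5 : toL c = b.mapDomain (fun w => x :: w) := by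
    apply hδ
    rw [evk_toL, h3, h4]
  have hinj : Function.Injective (fun w : List E => x :: w) := List.cons_injective
  -- all words of `b` are valid
  have h6 : ∀ w ∈ b.support, ∃ p : Pa G, p.tgt = a ∧ p.lst = w := by
    intro w hw
    have h7 : x :: w ∈ (toL c).support := by
      rw [h5, Finsupp.mapDomain_support_of_injective hinj]
      exact Finset.mem_image_of_mem _ hw
    have h8 := Finsupp.mapDomain_support h7
    obtain ⟨p, hp, hp'⟩ := Finset.mem_image.mp h8
    obtain ⟨⟨s, l⟩, hs⟩ := p
    change l = x :: w at hp'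
    subst hp'
    exact ⟨⟨(s, w), hs.1⟩, by rw [← hx]; exact hs.2.symm, rfl⟩
  have key : ∀ b : List E →₀ k, (∀ w ∈ b.support, ∃ p : Pa G, p.tgt = a ∧ p.lst = w) →
      ∃ o : L, Val f δ a o (linearCombination k (dl δ) b) := by
    intro b hb
    induction b using Finsupp.induction with
    | zero => exact ⟨0, by simpa using Val.zero a⟩
    | single_add w r b hw hr ih =>
      have h7 : w ∈ (single w r + b).support := by
        rw [Finsupp.mem_support_iff, Finsupp.add_apply, Finsupp.notMem_support_iff.mp hw]
        simpa using hr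
      have h8 : ∀ w' ∈ b.support, w' ∈ (single w r + b).support := by
        intro w' hw'
        have : w' ≠ w := by
          rintro rfl
          exact hw hw'
        rw [Finsupp.mem_support_iff, Finsupp.add_apply, Finsupp.single_eq_of_ne this, zero_add]
        exact Finsupp.mem_support_iff.mp hw'
      obtain ⟨p, hp, rfl⟩ := hb w h7
      obtain ⟨o, ho⟩ := ih fun w' hw' => hb w' (h8 w' hw')
      refine ⟨r • f.pe p + o, ?_⟩
      rw [map_add, linearCombination_single]
      refine Val.add ?_ ho
      have := (Val.path (f := f) (δ := δ) p).smul r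
      rwa [hp] at this
  obtain ⟨o, ho⟩ := key b h6
  exact ⟨o, by rwa [hb] at ho⟩

variable (f δ)

/-- descending argument -/
lemma descend (hG : G.TwoOut) (hδ : LinearIndependent k (dl δ))
    (hW : ∀ (d : D) (e g : E), e ≠ g → d * δ e ∈ W k δ → d * δ g ∈ W k δ → d ∈ W k δ) (j : ℕ) :
    ∀ (a : V) (l : L) (d : D), l * f.v a = l →
      (∀ q : Pa G, q.src = a → q.len = j → Val f δ q.tgt (l * f.pe q) (d * dl δ q.lst)) →
      Val f δ a l d := by
  induction j with
  | zero =>
    intro a l d hl h
    have := h (Pa.triv G a) rfl rfl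
    simpa [Fam.pe_triv, hl, dl] using this
  | succ j ih =>
    intro a l d hl h
    have h1 : ∀ x : E, G.s x = a → Val f δ (G.r x) (l * f.e x) (d * δ x) := by
      intro x hx
      refine ih (G.r x) (l * f.e x) (d * δ x) (by rw [mul_assoc, f.er]) ?_
      intro q hq hq'
      have h2 := h ((Fam.edg G x).comp q hq.symm) hx (by
        rw [Pa.comp_len, hq']
        rfl)
      rw [Pa.comp_tgt, f.pe_comp, f.pe_edg] at h2
      have h3 : ((Fam.edg G x).comp q hq.symm).lst = q.lst ++ [x] := rfl
      rw [h3, dl_append] at h2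
      rw [mul_assoc, mul_assoc]
      simpa [dl] using h2
    obtain ⟨x, y, hxy, hx, hy⟩ := hG a
    have hd : d ∈ W k δ := hW d x y hxy (h1 x hx).mem_W (h1 y hy).mem_W
    obtain ⟨o, ho⟩ := (h1 x hx).of_mul hδ hx hd
    have h2 : ∀ z : E, l * f.e z = o * f.e z := by
      intro z
      by_cases hz : G.s z = a
      · exact (h1 z hz).unique hδ (ho.mul_e z hz)
      · have h3 : l * f.e z = 0 := by
          rw [← hl, mul_assoc, f.v_mul_e, if_neg (Ne.symm hz), mul_zero]
        have h4 : o * f.v a = o := by
          obtain ⟨c, hc1, hc2, hc3⟩ := ho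
          rw [← hc2, linearCombination_apply, Finsupp.sum, Finset.sum_mul]
          refine Finset.sum_congr rfl fun p hp => ?_
          rw [smul_mul_assoc, f.pe_mul_v, if_pos (hc1 p hp)]
        have h5 : o * f.e z = 0 := by
          rw [← h4, mul_assoc, f.v_mul_e, if_neg (Ne.symm hz), mul_zero]
        rw [h3, h5]
    have hG' : ∀ a : V, ∃ x : E, G.s x = a := fun a => by
      obtain ⟨x, -, -, hx, -⟩ := hG a
      exact ⟨x, hx⟩
    have h6 : l = o := by
      calc l = l * ∑ x, f.e x * f.g x := by rw [f.sum_eg hG', mul_one]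
        _ = ∑ x, l * f.e x * f.g x := by
          rw [Finset.mul_sum]
          exact Finset.sum_congr rfl fun x _ => (mul_assoc _ _ _).symm
        _ = ∑ x, o * f.e x * f.g x := Finset.sum_congr rfl fun x _ => by rw [h2]
        _ = o * ∑ x, f.e x * f.g x := by
          rw [Finset.mul_sum]
          exact Finset.sum_congr rfl fun x _ => mul_assoc _ _ _
        _ = o := by rw [f.sum_eg hG', mul_one]
    rw [h6]
    exact ho

/-- Detection. -/
theorem detect (hf : f.Gens) (hi : f.Indep) (hG : G.TwoOut) (hδ : LinearIndependent k (dl δ))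
    (hW : ∀ (d : D) (e g : E), e ≠ g → d * δ e ∈ W k δ → d * δ g ∈ W k δ → d ∈ W k δ)
    (a : V) (l : L) (d : D) (hl : l * f.v a = l)
    (h : (1 : D) ⊗ₜ l - d ⊗ₜ f.v a ∈ Iδ f δ) : l ∈ f.O := by
  classical
  obtain ⟨i, hi'⟩ := mem_Iδ_ev f δ hf h
  obtain ⟨j, hj⟩ := f.long_mul hf l 0
  refine (descend f δ hG hδ hW (max i j) a l d hl ?_).mem_O
  intro q hq hq'
  obtain ⟨X, h1, h2⟩ := hi' q (by rw [hq']; exact le_max_left _ _)
  have h3 := f.OGe_le 0 (hj q (by rw [hq']; exact le_max_right _ _))
  have h4 : l * f.pe q ∈ LinearMap.range (linearCombination k f.pe) := by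
    rw [Finsupp.range_linearCombination]
    exact h3
  obtain ⟨c, hc⟩ := h4
  rw [map_sub, rm_tmul, rm_tmul, f.v_mul_pe, if_pos hq.symm, ← hc, ← Φ_cD, ← Φ_single,
    ← map_sub] at h1
  have h5 := Φ_injective f D hi h1
  rw [h5, map_sub, ev_cD, ev_single, sub_eq_zero] at h2
  -- the support of `c`
  have h6 : ∀ p ∈ c.support, p.tgt = q.tgt := by
    let c' := c.filter (fun p => p.tgt = q.tgt)
    have h7 : linearCombination k f.pe c' = linearCombination k f.pe c := by
      have h8 : linearCombination k f.pe c * f.v q.tgt = linearCombination k f.pe c := by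
        rw [hc, mul_assoc, f.pe_mul_tgt]
      rw [← h8]
      clear h8 h5 h2 h1 hc
      induction c using Finsupp.induction_linear with
      | zero => simp [c', Finsupp.filter_zero]
      | add b b' h h' =>
        simp only [c'] at *
        rw [Finsupp.filter_add, map_add, map_add, h, h', add_mul]
      | single p r =>
        simp only [c']
        rw [linearCombination_single, smul_mul_assoc, f.pe_mul_v]
        by_cases hp : p.tgt = q.tgt
        · rw [Finsupp.filter_single_of_pos (fun p : Pa G => p.tgt = q.tgt) hp,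
            linearCombination_single, if_pos hp]
        · rw [Finsupp.filter_single_of_neg (fun p : Pa G => p.tgt = q.tgt) hp, if_neg hp]
          simp
    have h9 : c' = c := hi h7
    intro p hp
    rw [← h9] at hp
    exact (Finsupp.mem_support_iff.mp hp |> fun h => by
      by_contra hne
      exact h (Finsupp.filter_apply_neg _ _ hne))
  exact ⟨c, h6, hc, h2⟩

end Val

end Pool.Agent.Helper92.LV
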