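import Mathlib
import Pool.Agent.Helper92.LV.M3
import Pool.Agent.Helper92.LV.K

set_option autoImplicit false

/-!
# The main argument: two Leavitt families generating the same algebra
-/

namespace Pool.Agent.Helper92.LV

universe u v w

open Finsupp TensorProduct

section DescLemmas

variable {V E : Type} {G : Graph V E}

lemma Pa.Desc.refl (q : Pa G) : q.Desc q := ⟨rfl, [], rfl⟩

lemma Pa.desc_comp (q p : Pa G) (h : q.tgt = p.src) : q.Desc (q.comp p h) := ⟨rfl, p.lst, rfl⟩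

lemma Pa.desc_ext (q : Pa G) (x : E) (h : G.s x = q.tgt) : q.Desc (q.ext x h) := ⟨rfl, [x], rfl⟩

lemma Pa.Desc.trans {q p r : Pa G} (h1 : q.Desc p) (h2 : p.Desc r) : q.Desc r := by
  obtain ⟨a, l, hl⟩ := h1
  obtain ⟨b, m, hm⟩ := h2
  exact ⟨b.trans a, m ++ l, by rw [hm, hl, List.append_assoc]⟩

/-- a path extending `q.ext x` and `q.ext y` forces `x = y` -/
lemma Pa.Desc.ext_unique {q p : Pa G} {x y : E} {hx : G.s x = q.tgt} {hy : G.s y = q.tgt}
    (h1 : (q.ext x hx).Desc p) (h2 : (q.ext y hy).Desc p) : x = y := by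
  obtain ⟨-, l, hl⟩ := h1
  obtain ⟨-, m, hm⟩ := h2
  simp only [Pa.ext_lst] at hl hm
  rw [hl] at hm
  have h3 : (l ++ [x]) ++ q.lst = (m ++ [y]) ++ q.lst := by simpa using hm
  have h4 := List.append_cancel_right h3
  have h5 := congrArg List.getLast? h4
  simpa using h5

end DescLemmas

section Main

variable {k : Type u} [Field k] {V E V' E' : Type} [Fintype V] [Fintype E] [DecidableEq V]
    [DecidableEq E] [Fintype V'] [Fintype E'] [DecidableEq V'] [DecidableEq E']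
    {G : Graph V E} {G' : Graph V' E'} {L : Type v} [Ring L] [Algebra k L]
    (f : Fam k G L) (f' : Fam k G' L)
    {D : Type w} [DivisionRing D] [Algebra k D] (δ : E → D)

/-- Long `G'`-paths absorb the edges and vertices of `G`. -/
lemma exists_j0 (hf' : f'.Gens) : ∃ j0 : ℕ, ∀ q : Pa G', j0 ≤ q.len →
    (∀ x : E, f.e x * f'.pe q ∈ f'.O) ∧ (∀ a : V, f.v a * f'.pe q ∈ f'.O) := by
  have h1 : ∀ x : E, ∃ j : ℕ, ∀ p : Pa G', j ≤ p.len → f.e x * f'.pe p ∈ f'.OGe 0 :=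
    fun x => f'.long_mul hf' (f.e x) 0
  have h2 : ∀ a : V, ∃ j : ℕ, ∀ p : Pa G', j ≤ p.len → f.v a * f'.pe p ∈ f'.OGe 0 :=
    fun a => f'.long_mul hf' (f.v a) 0
  choose j1 hj1 using h1
  choose j2 hj2 using h2
  refine ⟨max (Finset.univ.sup j1) (Finset.univ.sup j2), fun q hq => ⟨fun x => ?_, fun a => ?_⟩⟩
  · refine f'.OGe_le 0 (hj1 x q ?_)
    exact (Finset.le_sup (Finset.mem_univ x)).trans ((le_max_left _ _).trans hq)
  · refine f'.OGe_le 0 (hj2 a q ?_)
    exact (Finset.le_sup (Finset.mem_univ a)).trans ((le_max_right _ _).trans hq)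

/-- The defining relations, multiplied by `G'`-paths of length `j0`. -/
def Xset (j0 : ℕ) : Set (Pa G' →₀ D) :=
  {c | ∃ (x : E) (q : Pa G'), q.len = j0 ∧
    Φ f' D c = (1 : D) ⊗ₜ (f.e x * f'.pe q) - δ x ⊗ₜ (f.v (G.r x) * f'.pe q)}

lemma Xset_finite (hi' : f'.Indep) (j0 : ℕ) : (Xset f f' δ j0).Finite := by
  have h1 : {q : Pa G' | q.len ≤ j0}.Finite := Pa.finite_len j0
  have h2 : (Set.univ ×ˢ {q : Pa G' | q.len ≤ j0} : Set (E × Pa G')).Finite :=
    Set.finite_univ.prod h1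
  have h3 : ((fun y : E × Pa G' => (1 : D) ⊗ₜ[k] (f.e y.1 * f'.pe y.2) -
    δ y.1 ⊗ₜ (f.v (G.r y.1) * f'.pe y.2)) '' (Set.univ ×ˢ {q : Pa G' | q.len ≤ j0})).Finite :=
    h2.image _
  refine Set.Finite.of_finite_image (f := Φ f' D) (h3.subset ?_)
    (Φ_injective f' D hi').injOn
  rintro _ ⟨c, ⟨x, q, hq, hc⟩, rfl⟩
  exact ⟨(x, q), ⟨Set.mem_univ _, hq.le⟩, hc.symm⟩

lemma exists_bound (X : Set (Pa G' →₀ D)) (hX : X.Finite) :
    ∃ n : ℕ, 1 ≤ n ∧ ∀ c ∈ X, c ∈ lenLE G' D n := by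
  classical
  refine ⟨hX.toFinset.sup (fun c => c.support.sup Pa.len) + 1, by omega, fun c hc => ?_⟩
  rw [lenLE, Finsupp.mem_supported]
  intro p hp
  have h1 : p.len ≤ c.support.sup Pa.len := Finset.le_sup (f := Pa.len) hp
  have h2 : c.support.sup Pa.len ≤ hX.toFinset.sup (fun c => c.support.sup Pa.len) :=
    Finset.le_sup (f := fun c : Pa G' →₀ D => c.support.sup Pa.len) (hX.mem_toFinset.mpr hc)
  change p.len ≤ _
  omega

/-- The smallest stable submodule containing `X`. -/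
noncomputable def I0 (X : Set (Pa G' →₀ D)) : Submodule D (Pa G' →₀ D) :=
  sInf {J | Stable G' D J ∧ ∀ c ∈ X, c ∈ J}

lemma I0_stable (X : Set (Pa G' →₀ D)) : Stable G' D (I0 X) := by
  constructor
  · intro x c hc
    rw [I0, Submodule.mem_sInf] at hc ⊢
    exact fun J hJ => hJ.1.1 x c (hc J hJ)
  · intro x c hc
    rw [I0, Submodule.mem_sInf] at hc ⊢
    exact fun J hJ => hJ.1.2 x c (hc J hJ)

lemma subset_I0 (X : Set (Pa G' →₀ D)) : ∀ c ∈ X, c ∈ I0 X := by
  intro c hc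
  rw [I0, Submodule.mem_sInf]
  exact fun J hJ => hJ.2 c hc

lemma I0_le (X : Set (Pa G' →₀ D)) (J : Submodule D (Pa G' →₀ D)) (hJ : Stable G' D J)
    (hX : ∀ c ∈ X, c ∈ J) : I0 X ≤ J := sInf_le ⟨hJ, hX⟩

lemma I0_le_comap (j0 : ℕ) :
    I0 (Xset f f' δ j0) ≤ (Iδ f δ).comap (Φ f' D) := by
  refine I0_le _ _ ⟨fun x c hc => ?_, fun a c hc => ?_⟩ ?_
  · rw [Submodule.mem_comap] at hc ⊢
    rw [Φ_rmul]
    exact rm_mem f δ _ hc
  · rw [Submodule.mem_comap] at hc ⊢
    rw [Φ_vproj]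
    exact rm_mem f δ _ hc
  · rintro c ⟨x, q, hq, hc⟩
    rw [Submodule.mem_comap, hc]
    exact gen_mem f δ x _

/-- saturation property -/
lemma saturate (hf' : f'.Gens) (j0 : ℕ)
    (hj0 : ∀ q : Pa G', j0 ≤ q.len →
      (∀ x : E, f.e x * f'.pe q ∈ f'.O) ∧ (∀ a : V, f.v a * f'.pe q ∈ f'.O))
    {z : D ⊗[k] L} (hz : z ∈ Iδ f δ) :
    ∃ m : ℕ, ∀ p : Pa G', m ≤ p.len →
      ∃ y ∈ I0 (Xset f f' δ j0), Φ f' D y = rm D (f'.pe p) z := by
  have hO : ∀ y ∈ f'.O, ∀ d : D, ∃ c : Pa G' →₀ D, Φ f' D c = d ⊗ₜ y := by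
    intro y hy d
    have h4 : y ∈ LinearMap.range (linearCombination k f'.pe) := by
      rw [Finsupp.range_linearCombination]
      exact hy
    obtain ⟨c, hc⟩ := h4
    refine ⟨d • cD D c, ?_⟩
    rw [map_smul, Φ_cD, hc, smul_tmul_D, mul_one]
  have hpath : ∀ (x : E) (n : ℕ) (q : Pa G'), q.len = j0 + n →
      ∃ y ∈ I0 (Xset f f' δ j0), Φ f' D y =
        (1 : D) ⊗ₜ (f.e x * f'.pe q) - δ x ⊗ₜ (f.v (G.r x) * f'.pe q) := by
    intro x n
    induction n with
    | zero =>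
      intro q hq
      obtain ⟨c1, hc1⟩ := hO _ ((hj0 q (by omega)).1 x) 1
      obtain ⟨c2, hc2⟩ := hO _ ((hj0 q (by omega)).2 (G.r x)) (δ x)
      refine ⟨c1 - c2, subset_I0 _ _ ⟨x, q, by omega, ?_⟩, ?_⟩
      · rw [map_sub, hc1, hc2]
      · rw [map_sub, hc1, hc2]
    | succ n ih =>
      intro q hq
      obtain ⟨q', y, hy, rfl⟩ := q.exists_ext (by omega)
      rw [Pa.ext_len] at hq
      obtain ⟨c, hc, hc'⟩ := ih q' (by omega)
      refine ⟨rmul G' D y c, (I0_stable _).1 y c hc, ?_⟩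
      rw [Φ_rmul, hc', map_sub, rm_tmul, rm_tmul, f'.pe_ext, mul_assoc, mul_assoc]
  induction hz using Submodule.span_induction with
  | mem z hz =>
    obtain ⟨x, l, rfl⟩ := hz
    obtain ⟨m, hm⟩ := f'.long_mul hf' l j0
    refine ⟨m, fun p hp => ?_⟩
    rw [map_sub, rm_tmul, rm_tmul, mul_assoc, mul_assoc]
    have h1 := hm p hp
    generalize l * f'.pe p = y0 at h1
    induction h1 using Submodule.span_induction with
    | mem y hy =>
      obtain ⟨q, hq, rfl⟩ := hy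
      exact hpath x (q.len - j0) q (by have : j0 ≤ q.len := hq; omega)
    | zero => exact ⟨0, zero_mem _, by simp⟩
    | add a b _ _ ha hb =>
      obtain ⟨y1, h1, h1'⟩ := ha
      obtain ⟨y2, h2, h2'⟩ := hb
      refine ⟨y1 + y2, add_mem h1 h2, ?_⟩
      rw [map_add, h1', h2', mul_add, mul_add, TensorProduct.tmul_add, TensorProduct.tmul_add]
      abel
    | smul c a _ ha =>
      obtain ⟨y1, h1, h1'⟩ := ha
      refine ⟨(algebraMap k D c) • y1, Submodule.smul_mem _ _ h1, ?_⟩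
      rw [map_smul, h1', mul_smul_comm, mul_smul_comm, tmul_smul_D, tmul_smul_D, smul_sub]
  | zero => exact ⟨0, fun p _ => ⟨0, zero_mem _, by simp⟩⟩
  | add a b _ _ ha hb =>
    obtain ⟨i, hi⟩ := ha
    obtain ⟨j, hj⟩ := hb
    refine ⟨max i j, fun p hp => ?_⟩
    obtain ⟨y1, h1, h1'⟩ := hi p (le_trans (le_max_left _ _) hp)
    obtain ⟨y2, h2, h2'⟩ := hj p (le_trans (le_max_right _ _) hp)
    exact ⟨y1 + y2, add_mem h1 h2, by rw [map_add, map_add, h1', h2']⟩
  | smul c a _ ha =>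
    obtain ⟨i, hi⟩ := ha
    refine ⟨i, fun p hp => ?_⟩
    obtain ⟨y1, h1, h1'⟩ := hi p hp
    exact ⟨c • y1, Submodule.smul_mem _ _ h1, by rw [map_smul, map_smul, h1']⟩

/-- `pe q0 * O'` is spanned by the paths extending `q0`. -/
lemma desc_span (q0 : Pa G') {y : L} (hy : y ∈ f'.O) : ∃ c : Pa G' →₀ D,
    Φ f' D c = (1 : D) ⊗ₜ (f'.pe q0 * y) ∧ ∀ p ∈ c.support, q0.Desc p := by
  classical
  induction hy using Submodule.span_induction with
  | mem y hy =>
    obtain ⟨p, rfl⟩ := hy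
    by_cases h : q0.tgt = p.src
    · refine ⟨single (q0.comp p h) 1, ?_, ?_⟩
      · rw [Φ_single, f'.pe_comp]
      · intro p' hp'
        have := Finsupp.support_single_subset hp'
        rw [Finset.mem_singleton] at this
        rw [this]
        exact Pa.desc_comp q0 p h
    · refine ⟨0, ?_, by simp⟩
      rw [f'.pe_mul_pe, dif_neg h]
      simp
  | zero => exact ⟨0, by simp, by simp⟩
  | add a b _ _ ha hb =>
    obtain ⟨y1, h1, h1'⟩ := ha
    obtain ⟨y2, h2, h2'⟩ := hb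
    refine ⟨y1 + y2, ?_, ?_⟩
    · rw [map_add, h1, h2, mul_add, TensorProduct.tmul_add]
    · intro p hp
      rcases Finset.mem_union.mp (Finsupp.support_add hp) with h | h
      · exact h1' p h
      · exact h2' p h
  | smul c a _ ha =>
    obtain ⟨y1, h1, h1'⟩ := ha
    refine ⟨(algebraMap k D c) • y1, ?_, fun p hp => h1' p (Finsupp.support_smul hp)⟩
    rw [map_smul, h1, mul_smul_comm, tmul_smul_D]

/-- The key claim: paths of length `n` are congruent to shorter ones. -/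
theorem shorter (hf : f.Gens) (hδ : LinearIndependent k (dl δ)) (hc : G.StronglyConnected)
    (hG : G.TwoOut) (hf' : f'.Gens) (hi' : f'.Indep) (hG' : G'.TwoOut) (j0 : ℕ)
    (hj0 : ∀ q : Pa G', j0 ≤ q.len →
      (∀ x : E, f.e x * f'.pe q ∈ f'.O) ∧ (∀ a : V, f.v a * f'.pe q ∈ f'.O))
    (n : ℕ) (hn : 1 ≤ n) (hX : ∀ c ∈ Xset f f' δ j0, c ∈ lenLE G' D n)
    (q0 : Pa G') (hq0 : q0.len = n) :
    single q0 (1 : D) ∈ I0 (Xset f f' δ j0) ⊔ lenLT G' D n := by
  classical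
  by_contra hcon
  have hkey : ∀ c ∈ I0 (Xset f f' δ j0), (∀ p ∈ c.support, q0.Desc p) → c = 0 :=
    key G' D n hn _ (I0_stable _) _ hX (subset_I0 _) (I0_le _) q0 hq0 hcon
  have hG1 : ∀ a : V, ∃ x : E, G.s x = a := fun a => by
    obtain ⟨x, -, -, hx, -⟩ := hG a
    exact ⟨x, hx⟩
  have hG1' : ∀ a : V', ∃ x : E', G'.s x = a := fun a => by
    obtain ⟨x, -, -, hx, -⟩ := hG' a
    exact ⟨x, hx⟩
  obtain ⟨x1, x2, hx12, hx1, hx2⟩ := hG' q0.tgt
  set q1 := q0.ext x1 hx1 with hq1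
  set q2 := q0.ext x2 hx2 with hq2
  have hinj := Φ_injective f' D hi'
  have hz2 : (1 : D) ⊗ₜ[k] f'.pe q2 ∉ Iδ f δ := by
    intro hmem
    obtain ⟨m, hm⟩ := saturate f f' δ hf' j0 hj0 hmem
    obtain ⟨p, hp1, hp2⟩ := Pa.exists_path hG1' q2.tgt m
    obtain ⟨y, hy, hy'⟩ := hm p hp2.ge
    rw [rm_tmul, ← f'.pe_comp q2 p hp1.symm, ← Φ_single] at hy'
    have h1 := hinj hy'
    have h2 := hkey y hy (by
      rw [h1]
      intro p' hp'
      have := Finsupp.support_single_subset hp'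
      rw [Finset.mem_singleton] at this
      rw [this]
      exact (Pa.desc_ext q0 x2 hx2).trans (Pa.desc_comp q2 p hp1.symm))
    rw [h1] at h2
    simp at h2
  have h1 := simple f δ hG1 hf hδ hc _ hz2 ((1 : D) ⊗ₜ[k] f'.pe q1)
  obtain ⟨t, ht, i, hi, hti⟩ := Submodule.mem_sup.mp h1
  -- `t` times long paths
  have ht' : ∃ m : ℕ, ∀ p : Pa G', m ≤ p.len → ∃ c : Pa G' →₀ D,
      Φ f' D c = rm D (f'.pe p) t ∧ ∀ p' ∈ c.support, q2.Desc p' := by
    clear hti hi h1
    induction ht using Submodule.span_induction with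
    | mem z hz =>
      obtain ⟨l, rfl⟩ := hz
      obtain ⟨m, hm⟩ := f'.long_mul hf' l 0
      refine ⟨m, fun p hp => ?_⟩
      obtain ⟨c, hc1, hc2⟩ := desc_span f' (D := D) q2 (f'.OGe_le 0 (hm p hp))
      refine ⟨c, ?_, hc2⟩
      change _ = rm D (f'.pe p) (rm D l ((1 : D) ⊗ₜ[k] f'.pe q2))
      rw [hc1, rm_tmul, rm_tmul, mul_assoc]
    | zero => exact ⟨0, fun p _ => ⟨0, by simp, by simp⟩⟩
    | add a b _ _ ha hb =>
      obtain ⟨i, hi⟩ := ha
      obtain ⟨j, hj⟩ := hb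
      refine ⟨max i j, fun p hp => ?_⟩
      obtain ⟨y1, h1, h1'⟩ := hi p (le_trans (le_max_left _ _) hp)
      obtain ⟨y2, h2, h2'⟩ := hj p (le_trans (le_max_right _ _) hp)
      refine ⟨y1 + y2, by rw [map_add, map_add, h1, h2], ?_⟩
      intro p hp
      rcases Finset.mem_union.mp (Finsupp.support_add hp) with h | h
      · exact h1' p h
      · exact h2' p h
    | smul c a _ ha =>
      obtain ⟨i, hi⟩ := ha
      refine ⟨i, fun p hp => ?_⟩
      obtain ⟨y1, h1, h1'⟩ := hi p hp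
      exact ⟨c • y1, by rw [map_smul, map_smul, h1], fun p hp => h1' p (Finsupp.support_smul hp)⟩
  obtain ⟨m1, hm1⟩ := ht'
  obtain ⟨m2, hm2⟩ := saturate f f' δ hf' j0 hj0 hi
  obtain ⟨p, hp1, hp2⟩ := Pa.exists_path hG1' q1.tgt (max m1 m2)
  obtain ⟨c, hc1, hc2⟩ := hm1 p (by rw [hp2]; exact le_max_left _ _)
  obtain ⟨y, hy1, hy2⟩ := hm2 p (by rw [hp2]; exact le_max_right _ _)
  have h2 : rm D (f'.pe p) ((1 : D) ⊗ₜ[k] f'.pe q1) = Φ f' D (single (q1.comp p hp1.symm) 1) := by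
    rw [rm_tmul, Φ_single, f'.pe_comp]
  have h3 : y = single (q1.comp p hp1.symm) 1 - c := by
    apply hinj
    rw [map_sub, ← h2, hy2, hc1, ← hti, map_add]
    abel
  have hd1 : q0.Desc (q1.comp p hp1.symm) :=
    (Pa.desc_ext q0 x1 hx1).trans (Pa.desc_comp q1 p hp1.symm)
  have h4 : y = 0 := by
    refine hkey y hy1 ?_
    rw [h3]
    intro p' hp'
    rcases Finset.mem_union.mp (Finsupp.support_sub hp') with h | h
    · have := Finsupp.support_single_subset h
      rw [Finset.mem_singleton] at this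
      rw [this]
      exact hd1
    · exact (Pa.desc_ext q0 x2 hx2).trans (hc2 p' h)
  rw [h3, sub_eq_zero] at h4
  have h5 : q2.Desc (q1.comp p hp1.symm) := by
    refine hc2 _ ?_
    rw [← h4]
    simp
  exact hx12 (Pa.Desc.ext_unique (Pa.desc_comp q1 p hp1.symm) h5)

/-- every path is congruent to shorter ones -/
theorem all_shorter (hf : f.Gens) (hδ : LinearIndependent k (dl δ)) (hc : G.StronglyConnected)
    (hG : G.TwoOut) (hf' : f'.Gens) (hi' : f'.Indep) (hG' : G'.TwoOut) (j0 : ℕ)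
    (hj0 : ∀ q : Pa G', j0 ≤ q.len →
      (∀ x : E, f.e x * f'.pe q ∈ f'.O) ∧ (∀ a : V, f.v a * f'.pe q ∈ f'.O))
    (n : ℕ) (hn : 1 ≤ n) (hX : ∀ c ∈ Xset f f' δ j0, c ∈ lenLE G' D n)
    (q : Pa G') : single q (1 : D) ∈ I0 (Xset f f' δ j0) ⊔ lenLT G' D n := by
  classical
  have hLE : ∀ c ∈ lenLE G' D n, c ∈ I0 (Xset f f' δ j0) ⊔ lenLT G' D n := by
    intro c hcc
    rw [lenLE, Finsupp.mem_supported] at hcc
    rw [← Finsupp.sum_single c, Finsupp.sum]
    refine Submodule.sum_mem _ fun p hp => ?_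
    have h1 : single p (c p) = c p • single p (1 : D) := by simp
    rw [h1]
    refine Submodule.smul_mem _ _ ?_
    have h2 : p.len ≤ n := hcc hp
    rcases h2.lt_or_eq with h | h
    · refine Submodule.mem_sup_right ?_
      rw [lenLT, Finsupp.mem_supported]
      intro p' hp'
      have := Finsupp.support_single_subset hp'
      rw [Finset.mem_singleton] at this
      rw [this]
      exact h
    · exact shorter f f' δ hf hδ hc hG hf' hi' hG' j0 hj0 n hn hX p h
  have hind : ∀ (N : ℕ) (q : Pa G'), q.len = N →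
      single q (1 : D) ∈ I0 (Xset f f' δ j0) ⊔ lenLT G' D n := by
    intro N
    induction N with
    | zero =>
      intro q hq
      refine hLE _ ?_
      rw [lenLE, Finsupp.mem_supported]
      intro p' hp'
      have := Finsupp.support_single_subset hp'
      rw [Finset.mem_singleton] at this
      rw [this]
      change q.len ≤ n
      omega
    | succ N ih =>
      intro q hq
      obtain ⟨q', x, hx, rfl⟩ := q.exists_ext (by omega)
      rw [Pa.ext_len] at hq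
      obtain ⟨y, hy, u, hu, hyu⟩ := Submodule.mem_sup.mp (ih q' (by omega))
      have h1 : single (q'.ext x hx) (1 : D) = rmul G' D x (single q' 1) := by
        simp [rmul, hx]
      rw [h1, ← hyu, map_add]
      refine add_mem (Submodule.mem_sup_left ((I0_stable _).1 x y hy)) (hLE _ ?_)
      -- `rmul` raises length by at most one
      rw [lenLT, Finsupp.mem_supported] at hu
      rw [← Finsupp.sum_single u, Finsupp.sum, map_sum]
      refine Submodule.sum_mem _ fun p hp => ?_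
      have h2 : p.len < n := hu hp
      simp only [rmul, lsum_single]
      split_ifs with h
      · rw [lenLE, Finsupp.mem_supported]
        intro p' hp'
        have := Finsupp.support_single_subset hp'
        rw [Finset.mem_singleton] at this
        rw [this]
        change p.len + 1 ≤ n
        omega
      · simp
  exact hind _ q rfl

/-- **Boundedness.** -/
theorem bounded (hf : f.Gens) (hi : f.Indep) (hδ : LinearIndependent k (dl δ))
    (hW : ∀ (d : D) (e g : E), e ≠ g → d * δ e ∈ W k δ → d * δ g ∈ W k δ → d ∈ W k δ)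
    (hc : G.StronglyConnected) (hG : G.TwoOut) (hf' : f'.Gens) (hi' : f'.Indep)
    (hG' : G'.TwoOut) : ∃ m : ℕ, ∀ s ∈ f'.O, ∀ p : Pa G, m ≤ p.len → s * f.pe p ∈ f.O := by
  classical
  obtain ⟨j0, hj0⟩ := exists_j0 f f' hf'
  obtain ⟨n, hn, hX⟩ := exists_bound (Xset f f' δ j0) (Xset_finite f f' δ hi' j0)
  -- uniform `m` for the short paths
  have hm : ∃ m : ℕ, ∀ q : Pa G', q.len < n → ∀ p : Pa G, m ≤ p.len → f'.pe q * f.pe p ∈ f.O := by
    have h1 : {q : Pa G' | q.len ≤ n}.Finite := Pa.finite_len n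
    have h2 : ∀ q : Pa G', ∃ j : ℕ, ∀ p : Pa G, j ≤ p.len → f'.pe q * f.pe p ∈ f.OGe 0 :=
      fun q => f.long_mul hf (f'.pe q) 0
    choose j hj using h2
    refine ⟨h1.toFinset.sup j, fun q hq p hp => f.OGe_le 0 (hj q p ?_)⟩
    exact (Finset.le_sup (h1.mem_toFinset.mpr (show q.len ≤ n from hq.le))).trans hp
  obtain ⟨m, hm⟩ := hm
  refine ⟨m, fun s hs p hp => ?_⟩
  -- `1 ⊗ s ∈ Iδ + Φ (lenLT n)`
  have h1 : ∃ u ∈ lenLT G' D n, (1 : D) ⊗ₜ[k] s - Φ f' D u ∈ Iδ f δ := by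
    induction hs using Submodule.span_induction with
    | mem y hy =>
      obtain ⟨q, rfl⟩ := hy
      obtain ⟨y, hy, u, hu, hyu⟩ := Submodule.mem_sup.mp
        (all_shorter f f' δ hf hδ hc hG hf' hi' hG' j0 hj0 n hn hX q)
      refine ⟨u, hu, ?_⟩
      have h2 := I0_le_comap f f' δ j0 hy
      rw [Submodule.mem_comap] at h2
      rw [← Φ_single, ← hyu, map_add, add_sub_cancel_right]
      exact h2
    | zero => exact ⟨0, zero_mem _, by simp⟩
    | add a b _ _ ha hb =>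
      obtain ⟨y1, h1, h1'⟩ := ha
      obtain ⟨y2, h2, h2'⟩ := hb
      refine ⟨y1 + y2, add_mem h1 h2, ?_⟩
      rw [map_add, TensorProduct.tmul_add]
      convert add_mem h1' h2' using 1
      abel
    | smul c a _ ha =>
      obtain ⟨y1, h1, h1'⟩ := ha
      refine ⟨(algebraMap k D c) • y1, Submodule.smul_mem _ _ h1, ?_⟩
      rw [map_smul, tmul_smul_D, ← smul_sub]
      exact Submodule.smul_mem _ _ h1'
  obtain ⟨u, hu, hu'⟩ := h1
  -- multiply by `p`
  have h2 : ∃ d : D, rm D (f.pe p) (Φ f' D u) - d ⊗ₜ f.v p.tgt ∈ Iδ f δ := by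
    rw [lenLT, Finsupp.mem_supported] at hu
    have h3 : ∀ q ∈ u.support, ∃ d : D,
        rm D (f.pe p) (Φ f' D (single q (u q))) - d ⊗ₜ f.v p.tgt ∈ Iδ f δ := by
      intro q hq
      obtain ⟨d, hd⟩ := O_congr f δ (hm q (hu hq) p hp) p.tgt
      refine ⟨u q * d, ?_⟩
      have := Submodule.smul_mem _ (u q) hd
      rw [smul_sub, smul_tmul_D, smul_tmul_D, mul_one, mul_assoc, f.pe_mul_tgt] at this
      rw [Φ_single, rm_tmul]
      exact this
    choose! d hd using h3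
    refine ⟨∑ q ∈ u.support, d q, ?_⟩
    have hu1 : Φ f' D u = ∑ q ∈ u.support, Φ f' D (single q (u q)) := by
      conv_lhs => rw [← Finsupp.sum_single u, Finsupp.sum]
      rw [map_sum]
    rw [hu1, map_sum, TensorProduct.sum_tmul, ← Finset.sum_sub_distrib]
    exact Submodule.sum_mem _ fun q hq => hd q hq
  obtain ⟨d, hd⟩ := h2
  have h3 := rm_mem f δ (f.pe p) hu'
  rw [map_sub, rm_tmul] at h3
  have h4 := add_mem h3 hd
  rw [sub_add_sub_cancel] at h4
  exact detect f δ hf hi hG hδ hW p.tgt (s * f.pe p) d (by rw [mul_assoc, f.pe_mul_tgt]) h4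

end Main

end Pool.Agent.Helper92.LV
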