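import Mathlib
import Pool.Agent.Helper92.LV.B
import Pool.Agent.Helper92.LV.M4
import Pool.Agent.Helper92.LV.C3

set_option autoImplicit false

/-!
# Isomorphisms between Leavitt path algebras are bounded
-/

namespace Pool.Agent.Helper92.LV

universe u

section Main

variable (k : Type u) [Field k] {V E V' E' : Type} [Fintype V] [Fintype E] [DecidableEq V]
  [DecidableEq E] [Fintype V'] [Fintype E'] [DecidableEq V'] [DecidableEq E']
  (G : Graph V E) (G' : Graph V' E')

/-- the path element of a path of `G` as a product of edges -/
lemma canon_pl_eq (a : V) (l : List E) :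
    (canon k G).pl a l = gen k G (Gen.v a) * (l.reverse.map fun e => gen k G (Gen.e e)).prod := by
  induction l with
  | nil => exact (mul_one _).symm
  | cons x l ih =>
    change (canon k G).pl a l * gen k G (Gen.e x) = _
    rw [ih, List.reverse_cons, List.map_append, List.prod_append, List.map_singleton,
      List.prod_singleton, mul_assoc]

/-- A product of edges which is not a path vanishes. -/
lemma prod_eq_zero_or (l : List E) (a : V) (h : ¬ ok G a l) :
    gen k G (Gen.v a) * (l.reverse.map fun e => gen k G (Gen.e e)).prod = 0 := by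
  rw [← canon_pl_eq]
  induction l with
  | nil => exact absurd trivial h
  | cons x l ih =>
    change (canon k G).pl a l * gen k G (Gen.e x) = 0
    by_cases hl : ok G a l
    · have hx : G.s x ≠ rng G a l := fun hx => h ⟨hl, hx⟩
      have h1 : ∀ (l : List E) (a : V), (canon k G).pl a l =
          (canon k G).pl a l * gen k G (Gen.v (rng G a l)) := by
        intro l a
        cases l with
        | nil =>
          change gen k G (Gen.v a) = gen k G (Gen.v a) * gen k G (Gen.v a)
          have := (canon k G).vv a a
          rw [if_pos rfl] at this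
          exact this.symm
        | cons y l =>
          change (canon k G).pl a l * gen k G (Gen.e y) =
            (canon k G).pl a l * gen k G (Gen.e y) * gen k G (Gen.v (G.r y))
          rw [mul_assoc]
          congr 1
          exact ((canon k G).er y).symm
      have h2 : gen k G (Gen.e x) = gen k G (Gen.v (G.s x)) * gen k G (Gen.e x) :=
        ((canon k G).se x).symm
      have h3 : gen k G (Gen.v (rng G a l)) * gen k G (Gen.v (G.s x)) = 0 := by
        have := (canon k G).vv (rng G a l) (G.s x)
        rw [if_neg (Ne.symm hx)] at this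
        exact this
      rw [h1, h2, mul_assoc, ← mul_assoc (gen k G (Gen.v (rng G a l))), h3, zero_mul, mul_zero]
    · rw [ih hl, zero_mul]

/-- One direction. -/
theorem bounded_iso (hc : G.StronglyConnected) (hG : G.TwoOut) (hG' : G'.TwoOut)
    (φ : LPA k G' ≃ₐ[k] LPA k G) :
    ∃ m : ℕ, ∀ x ∈ pathAlg k G', ∀ l : List E, m ≤ l.length →
      φ x * (l.map fun e => gen k G (Gen.e e)).prod ∈ pathAlg k G := by
  classical
  obtain ⟨D, _, _, δ, hδ, hW⟩ := exists_div k E
  have hout : ∀ a : V, ∃ x : E, G.s x = a := fun a => by
    obtain ⟨e, f, _, h, _⟩ := hG a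
    exact ⟨e, h⟩
  have hout' : ∀ a : V', ∃ x : E', G'.s x = a := fun a => by
    obtain ⟨e, f, _, h, _⟩ := hG' a
    exact ⟨e, h⟩
  obtain ⟨m, hm⟩ := bounded (canon k G) ((canon k G').map (φ : LPA k G' →ₐ[k] LPA k G)) δ
    (canon_gens k G) (canon_indep k G hout) hδ hW hc hG
    ((canon k G').map_gens (φ : LPA k G' →ₐ[k] LPA k G) φ.surjective (canon_gens k G'))
    ((canon k G').map_indep (φ : LPA k G' →ₐ[k] LPA k G) φ.injective (canon_indep k G' hout')) hG'
  refine ⟨m, fun x hx l hl => ?_⟩
  have hx' : φ x ∈ ((canon k G').map (φ : LPA k G' →ₐ[k] LPA k G)).O := by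
    have h1 : x ∈ (canon k G').O := by
      rw [canon_O]
      exact hx
    rw [Fam.O] at h1 ⊢
    have h2 : ((canon k G').map (φ : LPA k G' →ₐ[k] LPA k G)).pe =
        (φ : LPA k G' →ₐ[k] LPA k G).toLinearMap ∘ (canon k G').pe := by
      funext p
      exact (canon k G').map_pe _ p
    rw [h2, Set.range_comp, ← Submodule.map_span]
    exact ⟨x, h1, rfl⟩
  -- decompose the unit
  have hone : (l.map fun e => gen k G (Gen.e e)).prod =
      ∑ a : V, gen k G (Gen.v a) * (l.map fun e => gen k G (Gen.e e)).prod := by
    rw [← Finset.sum_mul]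
    have := (canon k G).one
    change ∑ a : V, gen k G (Gen.v a) = 1 at this
    rw [this, one_mul]
  rw [hone, Finset.mul_sum]
  refine sum_mem fun a _ => ?_
  by_cases h : ok G a l.reverse
  · have h1 := hm (φ x) hx' ⟨(a, l.reverse), h⟩ (by
      change m ≤ l.reverse.length
      rwa [List.length_reverse])
    rw [canon_O] at h1
    have h2 : (canon k G).pe ⟨(a, l.reverse), h⟩ =
        gen k G (Gen.v a) * (l.map fun e => gen k G (Gen.e e)).prod := by
      change (canon k G).pl a l.reverse = _
      rw [canon_pl_eq, List.reverse_reverse]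
    rw [h2] at h1
    exact h1
  · have h1 := prod_eq_zero_or k G l.reverse a h
    rw [List.reverse_reverse] at h1
    rw [h1, mul_zero]
    exact zero_mem _

end Main

end Pool.Agent.Helper92.LV
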